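import Pool.Agent.P.MP_657a03_nt.G5.If

/-! Step FIELD. -/

set_option autoImplicit false
set_option linter.unusedSectionVars false

namespace Pool.Agent.P.MP_657a03_nt.G5

open NumberField Polynomial

namespace FIELDx

theorem sgn_add (K : Type) [Field K] (a b : ZMod 2) :
    (-1 : K) ^ (a + b).val = (-1) ^ a.val * (-1) ^ b.val := by
  have h : ∀ a b : ZMod 2, (-1 : ℤ) ^ (a + b).val = (-1) ^ a.val * (-1) ^ b.val := by decide
  have := congrArg (Int.cast : ℤ → K) (h a b)
  simpa using this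

theorem sgn_inj (K : Type) [Field K] [CharZero K] (a b : ZMod 2)
    (h : (-1 : K) ^ a.val = (-1) ^ b.val) : a = b := by
  have h' : ∀ a b : ZMod 2, (-1 : ℤ) ^ a.val = (-1) ^ b.val → a = b := by decide
  apply h'
  have : ((((-1 : ℤ) ^ a.val : ℤ)) : K) = (((-1 : ℤ) ^ b.val : ℤ) : K) := by simpa using h
  exact_mod_cast this

theorem one_add_sgn (K : Type) [Field K] (a : ZMod 2) (ha : a ≠ 0) :
    1 + (-1 : K) ^ a.val = 0 := by
  have h' : ∀ a : ZMod 2, a ≠ 0 → a.val = 1 := by decide
  rw [h' a ha]; simp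

theorem galois (K : Type) [Field K] [NumberField K] {t : ℕ} (d : Fin t → ℤ) (r : Fin t → K)
    (hr : ∀ i, r i ^ 2 = d i) (htop : Algebra.adjoin ℚ (Set.range r) = ⊤) : IsGalois ℚ K := by
  classical
  let p : ℚ[X] := ∏ i, (X ^ 2 - C (d i : ℚ))
  have hm : p.map (algebraMap ℚ K) = ∏ i, ((X - C (r i)) * (X - C (-r i))) := by
    simp only [p, Polynomial.map_prod]
    refine Finset.prod_congr rfl fun i _ => ?_
    have : (C ((d i : ℤ) : K) : K[X]) = C (r i) ^ 2 := by rw [← hr i, map_pow]
    simp only [Polynomial.map_sub, Polynomial.map_pow, map_X, map_C, eq_ratCast, Rat.cast_intCast,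
      this, map_neg]
    ring
  have hp0 : p ≠ 0 := by
    refine Finset.prod_ne_zero_iff.2 fun i _ => ?_
    exact (monic_X_pow_sub_C _ two_ne_zero).ne_zero
  have : IsSplittingField ℚ K p := by
    constructor
    · rw [hm]
      exact Splits.prod fun i _ => (Splits.X_sub_C _).mul (Splits.X_sub_C _)
    · rw [eq_top_iff, ← htop]
      apply Algebra.adjoin_mono
      rintro _ ⟨i, rfl⟩
      rw [mem_rootSet]
      refine ⟨hp0, ?_⟩
      simp only [p, map_prod]
      refine Finset.prod_eq_zero (Finset.mem_univ i) ?_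
      simp [hr i]
  have := Normal.of_isSplittingField (F := ℚ) (E := K) p
  exact IsGalois.mk

theorem core (K : Type) [Field K] [NumberField K] {t : ℕ} (d : Fin t → ℤ) (r : Fin t → K)
    (hr : ∀ i, r i ^ 2 = d i) (htop : Algebra.adjoin ℚ (Set.range r) = ⊤)
    (hs : ∀ S : Finset (Fin t), S.Nonempty → ¬ IsSquare (∏ i ∈ S, d i)) :
    ∃ r' : Fin t → 𝓞 K, MQ K d r' := by
  classical
  have hgal := galois K d r hr htop
  have hd : ∀ i, d i ≠ 0 := by
    intro i hi
    apply hs {i} (Finset.singleton_nonempty i)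
    simp [hi]
  have hr0 : ∀ i, r i ≠ 0 := by
    intro i hi
    have := hr i
    rw [hi] at this
    apply hd i
    have h2 : ((d i : ℤ) : K) = 0 := by rw [← this]; simp
    exact_mod_cast h2
  have hint : ∀ i, IsIntegral ℤ (r i) := by
    intro i
    apply IsIntegral.of_pow (n := 2) two_pos
    rw [hr i]
    exact isIntegral_algebraMap (R := ℤ) (A := K) (x := d i)
  have hex : ∀ (σ : K ≃ₐ[ℚ] K) (i : Fin t), ∃ a : ZMod 2, σ (r i) = (-1) ^ a.val * r i := by
    intro σ i
    have h : σ (r i) ^ 2 = r i ^ 2 := by rw [← map_pow, hr i]; simp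
    rcases sq_eq_sq_iff_eq_or_eq_neg.1 h with h | h
    · exact ⟨0, by simp [h]⟩
    · refine ⟨1, ?_⟩
      have : (1 : ZMod 2).val = 1 := by decide
      rw [this, h]; simp
  choose e he using hex
  have hmul : ∀ σ τ, e (σ * τ) = e σ + e τ := by
    intro σ τ
    funext i
    apply sgn_inj K
    apply mul_right_cancel₀ (hr0 i)
    rw [← he, Pi.add_apply, sgn_add, AlgEquiv.mul_apply, he τ, map_mul, he σ]
    simp only [map_pow, map_neg, map_one]
    ring
  have hone : e 1 = 0 := by
    have := hmul 1 1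
    rw [mul_one] at this
    simpa using this
  have hinj : ∀ σ, e σ = 0 → σ = 1 := by
    intro σ h
    apply AlgEquiv.coe_toAlgHom_injective
    apply AlgHom.ext_of_adjoin_eq_top htop
    rintro _ ⟨i, rfl⟩
    have := he σ i
    rw [h] at this
    simpa using this
  let χ : Finset (Fin t) → (K ≃ₐ[ℚ] K) →* K := fun S =>
    { toFun := fun σ => ∏ i ∈ S, (-1) ^ (e σ i).val
      map_one' := by simp [hone]
      map_mul' := by
        intro σ τ
        rw [← Finset.prod_mul_distrib]
        refine Finset.prod_congr rfl fun i _ => ?_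
        rw [hmul, Pi.add_apply, sgn_add] }
  have hχ : ∀ S σ, χ S σ = ∏ i ∈ S, (-1 : K) ^ (e σ i).val := fun _ _ => rfl
  have hact : ∀ (S : Finset (Fin t)) (σ : K ≃ₐ[ℚ] K),
      σ (∏ i ∈ S, r i) = χ S σ * ∏ i ∈ S, r i := by
    intro S σ
    rw [map_prod, hχ, ← Finset.prod_mul_distrib]
    exact Finset.prod_congr rfl fun i _ => he σ i
  have hsq : ∀ S : Finset (Fin t), (∏ i ∈ S, r i) ^ 2 = ((∏ i ∈ S, d i : ℤ) : K) := by
    intro S
    rw [← Finset.prod_pow]
    push_cast
    exact Finset.prod_congr rfl fun i _ => hr i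
  have hne : ∀ S : Finset (Fin t), S.Nonempty → χ S ≠ 1 := by
    intro S hS h
    have hfix : ∀ σ : K ≃ₐ[ℚ] K, σ (∏ i ∈ S, r i) = ∏ i ∈ S, r i := by
      intro σ
      rw [hact, h]; simp
    obtain ⟨q, hq⟩ := (IsGalois.mem_range_algebraMap_iff_fixed (F := ℚ) _).2 hfix
    apply hs S hS
    rw [← Rat.isSquare_intCast_iff]
    refine ⟨q, ?_⟩
    apply (algebraMap ℚ K).injective
    rw [map_mul, hq, ← sq, hsq]
    simp
  have hsum : ∀ σ : K ≃ₐ[ℚ] K, ∑ S : Finset (Fin t), χ S σ = if σ = 1 then 2 ^ t else 0 := by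
    intro σ
    have h1 := Finset.prod_one_add (f := fun i => (-1 : K) ^ (e σ i).val)
      (Finset.univ : Finset (Fin t))
    rw [Finset.powerset_univ] at h1
    simp only [hχ]
    rw [← h1]
    split_ifs with h
    · subst h
      simp [hone, one_add_one_eq_two]
    · have : e σ ≠ 0 := fun h' => h (hinj σ h')
      obtain ⟨i, hi⟩ := Function.ne_iff.1 this
      exact Finset.prod_eq_zero (Finset.mem_univ i) (one_add_sgn K _ hi)
  have hcard : Nat.card (K ≃ₐ[ℚ] K) = 2 ^ t := by
    have h1 : ∑ σ : K ≃ₐ[ℚ] K, ∑ S : Finset (Fin t), χ S σ = 2 ^ t := by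
      simp [hsum]
    rw [Finset.sum_comm, Finset.sum_eq_single ∅] at h1
    · simp only [hχ, Finset.prod_empty, Finset.sum_const, Finset.card_univ, nsmul_eq_mul,
        mul_one] at h1
      rw [Nat.card_eq_fintype_card]
      exact_mod_cast h1
    · intro S _ hS
      exact sum_hom_units_eq_zero _ (hne S (Finset.nonempty_iff_ne_empty.2 hS))
    · simp
  have hdeg : Module.finrank ℚ K = 2 ^ t := by
    rw [← IsGalois.card_aut_eq_finrank, hcard]
  have hgen : ∀ x : K, ((2 ^ t * ∏ i, d i : ℤ) : K) * x =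
      ∑ S : Finset (Fin t), ((Algebra.trace ℚ K (x * ∏ i ∈ S, r i) : ℚ) : K) *
        ((∏ i ∈ Sᶜ, d i : ℤ) : K) * ∏ i ∈ S, r i := by
    intro x
    have h1 : ∀ S : Finset (Fin t), ((Algebra.trace ℚ K (x * ∏ i ∈ S, r i) : ℚ) : K) *
        ((∏ i ∈ Sᶜ, d i : ℤ) : K) * ∏ i ∈ S, r i =
        ∑ σ : K ≃ₐ[ℚ] K, ((∏ i, d i : ℤ) : K) * σ x * χ S σ := by
      intro S
      have h2 := trace_eq_sum_automorphisms (K := ℚ) (x * ∏ i ∈ S, r i)
      rw [eq_ratCast] at h2
      rw [h2, Finset.sum_mul, Finset.sum_mul]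
      refine Finset.sum_congr rfl fun σ _ => ?_
      rw [map_mul, hact, ← Finset.prod_mul_prod_compl S d, Int.cast_mul, ← hsq S]
      ring
    simp only [h1]
    rw [Finset.sum_comm]
    simp only [← Finset.mul_sum, hsum]
    rw [Finset.sum_eq_single 1]
    · simp only [if_true, AlgEquiv.one_apply]
      push_cast
      ring
    · intro σ _ h
      simp [h]
    · simp
  have hli : LinearIndependent ℚ fun S : Finset (Fin t) => ∏ i ∈ S, r i := by
    apply linearIndependent_of_top_le_span_of_card_eq_finrank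
    · intro x _
      have hN : ((2 ^ t * ∏ i, d i : ℤ) : K) ≠ 0 := by
        have : (2 ^ t * ∏ i, d i : ℤ) ≠ 0 :=
          mul_ne_zero (by positivity) (Finset.prod_ne_zero_iff.2 fun i _ => hd i)
        exact_mod_cast this
      have h1 := hgen (((2 ^ t * ∏ i, d i : ℤ) : K)⁻¹ * x)
      rw [mul_inv_cancel_left₀ hN] at h1
      rw [h1]
      refine Submodule.sum_mem _ fun S _ => ?_
      have h3 : ∀ (q : ℚ) (m : ℤ) (y : K), (q : K) * (m : K) * y = (q * m : ℚ) • y := by
        intro q m y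
        rw [Rat.smul_def]; push_cast; ring
      rw [h3]
      exact Submodule.smul_mem _ _ (Submodule.subset_span ⟨S, rfl⟩)
    · simp [hdeg]
  obtain ⟨r', hr'⟩ : ∃ r' : Fin t → 𝓞 K, ∀ i, algebraMap (𝓞 K) K (r' i) = r i :=
    ⟨fun i => ⟨r i, hint i⟩, fun _ => rfl⟩
  refine ⟨r', ?_, hd, hgal, ?_, hdeg, ?_, ?_⟩
  · intro i
    apply RingOfIntegers.coe_injective
    simpa [hr'] using hr i
  · let E : (K ≃ₐ[ℚ] K) →* Multiplicative (Fin t → ZMod 2) :=
      { toFun := fun σ => Multiplicative.ofAdd (e σ)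
        map_one' := by simp [hone]
        map_mul' := by intro σ τ; simp [hmul] }
    have hE : Function.Bijective E := by
      rw [Nat.bijective_iff_injective_and_card]
      refine ⟨(injective_iff_map_eq_one E).2 fun σ h => hinj σ ?_, ?_⟩
      · exact Multiplicative.ofAdd.injective h
      · rw [hcard]; simp
    refine ⟨MulEquiv.ofBijective E hE, fun σ i => ?_⟩
    have h1 : (r' i : K) = r i := hr' i
    rw [h1]
    exact he σ i
  · have h1 := Fintype.linearIndependent_iff.1 (hli.restrict_scalars' ℤ)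
    refine Fintype.linearIndependent_iff.2 fun g hg => h1 g ?_
    have h2 := congrArg (algebraMap (𝓞 K) K) hg
    simpa [hr'] using h2
  · intro x
    have hT : ∀ S : Finset (Fin t), ∃ m : ℤ, (m : ℚ) =
        Algebra.trace ℚ K ((x : K) * ∏ i ∈ S, r i) := by
      intro S
      have h1 : IsIntegral ℤ ((x : K) * ∏ i ∈ S, r i) :=
        x.isIntegral_coe.mul (IsIntegral.prod _ fun i _ => hint i)
      have h2 : IsIntegral ℤ (Algebra.trace ℚ K ((x : K) * ∏ i ∈ S, r i)) :=
        Algebra.isIntegral_trace h1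
      obtain ⟨m, hm⟩ := IsIntegrallyClosed.isIntegral_iff.1 h2
      exact ⟨m, by simpa using hm⟩
    choose m hm using hT
    refine ⟨fun S => m S * ∏ i ∈ Sᶜ, d i, ?_⟩
    apply RingOfIntegers.coe_injective
    have h1 := hgen (x : K)
    simp only [← hm] at h1
    simpa [hr', map_ofNat] using h1

end FIELDx

theorem p_FIELD :
    S_FIELD := by
  intro t d Ω _ _ ρ hρ hs
  let F : IntermediateField ℚ Ω := IntermediateField.adjoin ℚ (Set.range ρ)
  have hint : ∀ x ∈ Set.range ρ, IsIntegral ℚ x := by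
    rintro _ ⟨i, rfl⟩
    apply IsIntegral.of_pow (n := 2) two_pos
    rw [hρ i]
    have := isIntegral_algebraMap (R := ℚ) (A := Ω) (x := (d i : ℚ))
    simpa using this
  have hfin : FiniteDimensional ℚ F := IntermediateField.finiteDimensional_adjoin hint
  have hNF : NumberField F := NumberField.mk
  let r : Fin t → F := fun i => ⟨ρ i, IntermediateField.subset_adjoin _ _ ⟨i, rfl⟩⟩
  have hr : ∀ i, r i ^ 2 = d i := by
    intro i
    apply Subtype.ext
    simpa using hρ i
  have htop0 : @IntermediateField.adjoin ℚ _ F _ F.algebra' (Set.range r) = ⊤ := by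
    apply IntermediateField.lift_injective
    rw [IntermediateField.lift_adjoin, IntermediateField.lift_top, ← Set.range_comp]
    rfl
  have htop : IntermediateField.adjoin ℚ (Set.range r) = ⊤ := htop0
  have htop' : Algebra.adjoin ℚ (Set.range r) = ⊤ := by
    rw [← IntermediateField.adjoin_toSubalgebra_of_isAlgebraic
      fun x _ => Algebra.IsAlgebraic.isAlgebraic x, htop]
    rfl
  obtain ⟨r', hr'⟩ := FIELDx.core F d r hr htop' hs
  exact ⟨F, inferInstance, hNF, F.val.toRingHom, r', hr'⟩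

end Pool.Agent.P.MP_657a03_nt.G5
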