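import Pool.Agent.P.MP_657a03_nt.G5.If

/-! Lucas polynomials, units and the reduction modulo a prime. -/

set_option autoImplicit false

namespace Pool.Agent.P.MP_657a03_nt.G5

open Polynomial NumberField

theorem U_succ (n : ℕ) (s : ℤ) :
    (U (n + 2)).eval s = s * (U (n + 1)).eval s - (U n).eval s := by
  simp [U]

theorem U_pow {R : Type} [CommRing R] (e e' : R) (s : ℤ) (h1 : e * e' = 1) (h2 : e + e' = s)
    (n : ℕ) : e ^ (n + 1) = ((U (n + 1)).eval s : ℤ) * e - ((U n).eval s : ℤ) := by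
  induction n with
  | zero => simp [U]
  | succ n ih =>
    rw [pow_succ, ih, U_succ]
    push_cast
    linear_combination (((U (n + 1)).eval s : ℤ) : R) * e * h2 -
      (((U (n + 1)).eval s : ℤ) : R) * h1

theorem U_der (n : ℕ) : (X ^ 2 - 4) * derivative (U n) =
      (n : ℤ[X]) * (2 * U (n + 1) - X * U n) - X * U n ∧
    (X ^ 2 - 4) * derivative (U (n + 1)) =
      ((n + 1 : ℕ) : ℤ[X]) * (2 * U (n + 2) - X * U (n + 1)) - X * U (n + 1) := by
  induction n with
  | zero => simp [U]; ring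
  | succ n ih =>
    refine ⟨ih.2, ?_⟩
    have h3 : U (n + 1 + 2) = X * U (n + 2) - U (n + 1) := by simp [U]
    have h2 : U (n + 2) = X * U (n + 1) - U n := by simp [U]
    have hd : derivative (U (n + 2)) =
        U (n + 1) + X * derivative (U (n + 1)) - derivative (U n) := by
      rw [h2]; simp
    have i1 := ih.1
    have i2 := ih.2
    rw [show n + 1 + 1 = n + 2 from rfl, hd, h3]
    rw [h2] at i2 ⊢
    push_cast at i1 i2 ⊢
    linear_combination X * i2 - i1

theorem p_UNIT : S_UNIT := by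
  intro K _ _ r D s g hr hD hg
  have hD' : (D : K) ≠ 0 := Int.cast_ne_zero.2 hD
  have hr' : (r : K) ^ 2 = D := by
    have := congrArg (algebraMap (𝓞 K) K) hr
    simpa using this
  have hg' : ((s : K) ^ 2 - 4) * D = (g : K) ^ 2 := by exact_mod_cast hg
  have hw : ((g : K) * r / D) ^ 2 = (s : K) ^ 2 - 4 := by
    field_simp
    linear_combination (g : K) ^ 2 * hr' - (D : K) * hg'
  have key : ∀ w : K, w ^ 2 = (s : K) ^ 2 - 4 → IsIntegral ℤ ((s + w) / 2) := by
    intro w hw
    refine ⟨X ^ 2 - (C s * X - 1), ?_, ?_⟩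
    · apply monic_X_pow_sub
      refine lt_of_le_of_lt (b := 1) ?_ (by norm_num)
      compute_degree
    · rw [eval₂_sub, eval₂_sub, eval₂_mul, eval₂_X_pow, eval₂_C, eval₂_X, eval₂_one, eq_intCast]
      linear_combination (1 / 4 : K) * hw
  let e : 𝓞 K := ⟨_, key _ hw⟩
  let e' : 𝓞 K := ⟨_, key (-((g : K) * r / D)) (by rw [neg_sq, hw])⟩
  have he : algebraMap (𝓞 K) K e = (s + (g : K) * r / D) / 2 := rfl
  have he' : algebraMap (𝓞 K) K e' = (s + -((g : K) * r / D)) / 2 := rfl
  have h1 : e * e' = 1 := by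
    apply RingOfIntegers.coe_injective
    rw [map_mul, he, he', map_one]
    linear_combination (-1 / 4 : K) * hw
  have h2 : e + e' = s := by
    apply RingOfIntegers.coe_injective
    rw [map_add, he, he', map_intCast]
    ring
  refine ⟨e, e', h1, h2, ?_, fun n => ⟨U_pow e e' s h1 h2 n,
    U_pow e' e s (by rw [mul_comm, h1]) (by rw [add_comm, h2]) n⟩⟩
  apply RingOfIntegers.coe_injective
  rw [map_mul, map_sub, he, he', map_mul, map_intCast, map_intCast]
  change _ = (g : K) * (r : K)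
  field_simp
  ring

theorem luc_aux (p : ℕ) (s : ℤ) (hp : p.Prime) (hp2 : p ≠ 2) (hs : ¬ (p : ℤ) ∣ s ^ 2 - 4)
    (F : Type) [Field F] [IsAlgClosed F] [CharP F p] : (p : ℤ) ∣ (U (p ^ 2 - 1)).eval s ∧
    (p : ℤ) ∣ (U (p ^ 2 - 2)).eval s + 1 ∧ ¬ (p : ℤ) ∣ (derivative (U (p ^ 2 - 1))).eval s := by
  have := Fact.mk hp
  have hz : ∀ n : ℤ, (n : F) = 0 ↔ (p : ℤ) ∣ n := fun n => CharP.intCast_eq_zero_iff F p n
  obtain ⟨a, ha⟩ : ∃ a : F, a ^ 2 - s * a + 1 = 0 := by
    obtain ⟨a, ha⟩ := IsAlgClosed.exists_root (X ^ 2 - (C (s : F) * X - 1)) (by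
      have : (X ^ 2 - (C (s : F) * X - 1) : F[X]).degree = 2 := by compute_degree!
      rw [this]; norm_num)
    refine ⟨a, ?_⟩
    simp only [IsRoot, eval_sub, eval_mul, eval_pow, eval_X, eval_C, eval_one] at ha
    linear_combination ha
  set b : F := s - a with hb
  have h1 : a * b = 1 := by rw [hb]; linear_combination -ha
  have h2 : a + b = s := by rw [hb]; ring
  have hab : a - b ≠ 0 := by
    intro h
    apply hs
    rw [← hz]
    push_cast
    linear_combination (a - b) * h + 4 * h1 - (s + a + b) * h2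
  have hsp : (s : F) ^ p = s := by
    rw [← frobenius_def, map_intCast]
  have hf : ∀ x y : F, x * y = 1 → x + y = s → x ^ p = x ∨ x ^ p = y := by
    intro x y h h'
    have e1 : x ^ p * y ^ p = 1 := by rw [← mul_pow, h, one_pow]
    have e2 : x ^ p + y ^ p = s := by rw [← add_pow_char, h', hsp]
    have : (x ^ p - x) * (x ^ p - y) = 0 := by
      linear_combination x ^ p * e2 - e1 + h - x ^ p * h'
    rcases mul_eq_zero.1 this with h | h
    · exact Or.inl (sub_eq_zero.1 h)
    · exact Or.inr (sub_eq_zero.1 h)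
  have hq : ∀ x y : F, x * y = 1 → x + y = s → x ^ (p ^ 2 - 1) = 1 := by
    intro x y h h'
    have hx : x ≠ 0 := left_ne_zero_of_mul_eq_one h
    have e2 : x ^ p + y ^ p = s := by rw [← add_pow_char, h', hsp]
    have : x ^ p ^ 2 = x := by
      rw [sq, pow_mul]
      rcases hf x y h h' with h3 | h3
      · rw [h3, h3]
      · rw [h3]; linear_combination e2 - h3 - h'
    apply mul_right_cancel₀ hx
    rw [← pow_succ, Nat.sub_add_cancel (Nat.one_le_pow _ _ hp.pos), this, one_mul]
  obtain ⟨n, hn⟩ : ∃ n, p ^ 2 = n + 2 :=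
    ⟨p ^ 2 - 2, (Nat.sub_add_cancel (by have := hp.two_le; nlinarith)).symm⟩
  have ea := hq a b h1 h2
  have eb := hq b a (by rw [mul_comm, h1]) (by rw [add_comm, h2])
  rw [hn] at ea eb ⊢
  simp only [Nat.add_succ_sub_one, Nat.add_sub_cancel] at ea eb ⊢
  rw [U_pow a b s h1 h2] at ea
  rw [U_pow b a s (by rw [mul_comm, h1]) (by rw [add_comm, h2])] at eb
  have u1 : (((U (n + 1)).eval s : ℤ) : F) = 0 := by
    apply mul_right_cancel₀ hab
    linear_combination ea - eb
  have u0 : (((U n).eval s + 1 : ℤ) : F) = 0 := by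
    push_cast
    linear_combination a * u1 - ea
  refine ⟨(hz _).1 u1, (hz _).1 u0, fun h => ?_⟩
  have hd := congrArg (fun P => ((eval s P : ℤ) : F)) (U_der n).2
  simp only [eval_mul, eval_sub, eval_pow, eval_X, eval_ofNat, eval_natCast, U_succ] at hd
  have hp0 : ((n + 2 : ℕ) : F) = 0 := by rw [← hn]; simp
  have h2' : (2 : F) = 0 := by
    push_cast at hd hp0 u0
    rw [(hz _).2 h, u1] at hd
    linear_combination hd - (2 * n + 2) * u0 + 2 * hp0
  have hp3 : (p : ℤ) ∣ 2 := (hz 2).1 (by exact_mod_cast h2')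
  exact hp2 ((Nat.prime_dvd_prime_iff_eq hp Nat.prime_two).1 (by exact_mod_cast hp3))

theorem p_LUC : S_LUC := by
  intro p s hp hp2 hs
  have := Fact.mk hp
  exact luc_aux p s hp hp2 hs (AlgebraicClosure (ZMod p))

end Pool.Agent.P.MP_657a03_nt.G5
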