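import Pool.Agent.P.MP_657a03_nt.G5.If

/-! Step REG. -/

set_option autoImplicit false
set_option linter.unusedSectionVars false

namespace Pool.Agent.P.MP_657a03_nt.G5

open NumberField Polynomial

namespace REGx

open IsUltrametricDist

variable {L : Type} [NormedField L] [IsUltrametricDist L]

theorem add_le {x y : L} {C : ℝ} (hx : ‖x‖ ≤ C) (hy : ‖y‖ ≤ C) : ‖x + y‖ ≤ C :=
  (norm_add_le_max x y).trans (max_le hx hy)

theorem mul_le {x y : L} {C : ℝ} (hx : ‖x‖ ≤ 1) (hy : ‖y‖ ≤ C) : ‖x * y‖ ≤ C := by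
  rw [norm_mul]
  exact (mul_le_of_le_one_left (norm_nonneg _) hx).trans hy

theorem prod_near {ι : Type} (a b : ι → L) {C : ℝ} (hC : 0 ≤ C) (hC1 : C ≤ 1)
    (hb : ∀ i, ‖b i‖ ≤ 1) (h : ∀ i, ‖a i - b i‖ ≤ C) (s : Finset ι) :
    ‖∏ i ∈ s, a i - ∏ i ∈ s, b i‖ ≤ C := by
  classical
  induction s using Finset.induction_on with
  | empty => simpa
  | insert i s hi ih =>
    have e : ∏ j ∈ insert i s, a j - ∏ j ∈ insert i s, b j =
        (a i - b i + b i) * (∏ j ∈ s, a j - ∏ j ∈ s, b j) + (∏ j ∈ s, b j) * (a i - b i) := by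
      rw [Finset.prod_insert hi, Finset.prod_insert hi]; ring
    rw [e]
    refine add_le (mul_le (add_le ((h i).trans hC1) (hb i)) ih) (mul_le ?_ (h i))
    rw [norm_prod]
    exact Finset.prod_le_one (fun _ _ => norm_nonneg _) fun j _ => hb j

theorem det_near {ι : Type} [Fintype ι] [DecidableEq ι] (A B : Matrix ι ι L)
    (hb : ∀ i j, ‖B i j‖ ≤ 1) (h : ∀ i j, ‖A i j - B i j‖ ≤ 2 / 3) (hB : ‖B.det‖ = 1) :
    ‖A.det‖ = 1 := by
  have h1 : ‖A.det - B.det‖ ≤ 2 / 3 := by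
    rw [Matrix.det_apply', Matrix.det_apply', ← Finset.sum_sub_distrib]
    refine norm_sum_le_of_forall_le_of_nonneg (by norm_num) fun σ _ => ?_
    rw [← mul_sub]
    exact mul_le (norm_intCast_le_one L _) (prod_near _ _ (by norm_num) (by norm_num)
      (fun i => hb _ _) (fun i => h _ _) _)
  rw [← sub_add_cancel A.det B.det, norm_add_eq_max_of_norm_ne_norm (by linarith), hB,
    max_eq_right (by linarith)]

theorem small (k : ℕ) : ((k : ℝ) + 1 + 1) * (1 / 3) ^ (k + 1) ≤ 2 / 3 := by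
  induction k with
  | zero => norm_num
  | succ k ih =>
    push_cast
    rw [pow_succ]
    have h : (0 : ℝ) ≤ (1 / 3) ^ (k + 1) := by positivity
    have hk : (0 : ℝ) ≤ k := by positivity
    nlinarith [mul_nonneg hk h]

variable {p : ℕ} [hp : Fact p.Prime] [NormedAlgebra ℚ_[p] L]

theorem norm_int (m : ℤ) : ‖(m : L)‖ = ‖(m : ℚ_[p])‖ := by
  rw [← norm_algebraMap' L (m : ℚ_[p]), map_intCast]

theorem norm_one' {m : ℤ} (h : ¬ (p : ℤ) ∣ m) : ‖(m : L)‖ = 1 := by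
  rw [norm_int (p := p)]
  exact le_antisymm (Padic.norm_int_le_one m) (not_lt.1 (mt Padic.norm_intCast_lt_one_iff.1 h))

theorem norm_p' : ‖(p : L)‖ = (p : ℝ)⁻¹ := by
  simpa using norm_int (L := L) (p := p) p

include hp in
theorem inv_le (k : ℕ) : ‖(k : L) + 1‖⁻¹ ≤ k + 1 := by
  obtain ⟨e, m, hm, h⟩ := Nat.exists_eq_pow_mul_and_not_dvd k.succ_ne_zero p hp.out.one_lt.ne'
  have h1 : ‖(m : L)‖ = 1 := by
    simpa using norm_one' (L := L) (p := p) (m := m) (by exact_mod_cast hm)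
  have m1 : (1 : ℝ) ≤ m := by
    exact_mod_cast Nat.pos_of_ne_zero fun h => hm (by simp [h])
  have e1 : (k : L) + 1 = p ^ e * m := by exact_mod_cast congrArg (Nat.cast : ℕ → L) h
  have e2 : (k : ℝ) + 1 = p ^ e * m := by exact_mod_cast h
  rw [e1, e2, norm_mul, h1, norm_pow, norm_p', mul_one, inv_pow, inv_inv]
  exact le_mul_of_one_le_right (by positivity) m1

include hp in
theorem log_near [CompleteSpace L] {x : L} (hx : ‖x‖ ≤ 1 / 3) :
    ‖∑' k : ℕ, (-1 : L) ^ k * x ^ (k + 1) / ((k : L) + 1) - x‖ ≤ ‖x‖ * (2 / 3) := by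
  have ht : ∀ k : ℕ, ‖(-1 : L) ^ k * x ^ (k + 1) / ((k : L) + 1)‖ ≤
      ‖x‖ * ((k + 1) * (1 / 3) ^ k) := fun k => by
    have := inv_le (L := L) (p := p) k
    rw [norm_div, norm_mul, norm_pow, norm_pow, norm_neg, norm_one, one_pow, div_eq_mul_inv,
      pow_succ]
    calc 1 * (‖x‖ ^ k * ‖x‖) * ‖(k : L) + 1‖⁻¹ ≤ 1 * ((1 / 3) ^ k * ‖x‖) * (k + 1) := by gcongr
      _ = _ := by ring
  have hs : Summable fun k : ℕ => (-1 : L) ^ k * x ^ (k + 1) / ((k : L) + 1) := by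
    refine Summable.of_norm_bounded (Summable.mul_left _ ?_) ht
    have h2 : Summable fun k : ℕ => (k : ℝ) ^ 1 * (1 / 3 : ℝ) ^ k :=
      summable_pow_mul_geometric_of_norm_lt_one 1 (by norm_num)
    refine (h2.add (summable_geometric_of_lt_one (r := 1 / 3) (by norm_num)
      (by norm_num))).congr fun k => ?_
    ring
  rw [hs.tsum_eq_zero_add]
  simp only [pow_zero, zero_add, pow_one, Nat.cast_zero, one_mul, div_one, add_sub_cancel_left]
  refine norm_tsum_le_of_forall_le_of_nonneg (by positivity) fun k =>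
    (ht (k + 1)).trans (mul_le_mul_of_nonneg_left ?_ (norm_nonneg _))
  push_cast
  exact small k

theorem key [CompleteSpace L] (h2 : p ≠ 2) {R : Type} [CommRing R] (j : R →+* L)
    (hj : ∀ x, ‖j x‖ ≤ 1) {η A z : R} {c : ℤ} {q e N : ℕ} (hN : N = q * e) (hpN : ¬ p ∣ N)
    (hc : ¬ (p : ℤ) ∣ c) (h : c * (η ^ q - 1) = p * A + p ^ 2 * z) :
    ‖(p : L)⁻¹ * ((N : L)⁻¹ * ∑' k : ℕ, (-1 : L) ^ k * (j η ^ N - 1) ^ (k + 1) / ((k : L) + 1)) -
      ((q * c : ℤ) : L)⁻¹ * j A‖ ≤ 2 / 3 := by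
  have p3 : (3 : ℝ) ≤ p := by
    have := hp.out.two_le
    exact_mod_cast (by omega : 3 ≤ p)
  have n0 : ‖(p : L)‖ ≤ 1 / 3 := by rw [norm_p', one_div]; exact inv_anti₀ (by norm_num) p3
  have p0 : 0 < ‖(p : L)‖ := by rw [norm_p']; positivity
  have n1 : ‖(N : L)‖ = 1 := by
    simpa using norm_one' (L := L) (p := p) (m := N) (by exact_mod_cast hpN)
  have n2 : ‖(q : L)‖ = 1 := by
    simpa using norm_one' (L := L) (p := p) (m := q)
      fun h => hpN (hN ▸ (Int.natCast_dvd_natCast.1 h).mul_right e)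
  have n3 : ‖(c : L)‖ = 1 := norm_one' hc
  obtain ⟨w, hw⟩ := sq_dvd_add_pow_sub_sub (η ^ q - 1) 1 e
  have z0 : (p : L) ≠ 0 := norm_pos_iff.1 p0
  have z1 : (N : L) ≠ 0 := norm_ne_zero_iff.1 (n1 ▸ one_ne_zero)
  have z2 : (q : L) ≠ 0 := norm_ne_zero_iff.1 (n2 ▸ one_ne_zero)
  have z3 : (c : L) ≠ 0 := norm_ne_zero_iff.1 (n3 ▸ one_ne_zero)
  obtain ⟨u, hu⟩ : ∃ u : L, u = (c : L)⁻¹ * (j A + p * j z) := ⟨_, rfl⟩
  have u1 : ‖u‖ ≤ 1 := hu ▸ mul_le (by rw [norm_inv, n3, inv_one])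
    (add_le (hj _) (mul_le (by linarith) (hj _)))
  have e1 : j η ^ q - 1 = p * u := by
    have := congrArg j h
    simp only [map_mul, map_sub, map_add, map_pow, map_intCast, map_natCast, map_one] at this
    rw [hu]
    field_simp
    linear_combination this
  have e2 : j η ^ N - 1 = p * (e * u + p * (u * u * j w)) := by
    have := congrArg j hw
    simp only [map_mul, map_sub, map_pow, map_natCast, map_one, add_sub_cancel, one_pow,
      e1] at this
    rw [hN, pow_mul]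
    linear_combination this
  have u2 : ‖(p : L) * (u * u * j w)‖ ≤ 1 / 3 := by
    rw [mul_comm]; exact mul_le (mul_le (mul_le u1 u1) (hj _)) n0
  have n4 : ‖j η ^ N - 1‖ ≤ ‖(p : L)‖ := by
    rw [e2, mul_comm]
    exact mul_le (add_le (mul_le (norm_natCast_le_one L _) u1) (by linarith)) le_rfl
  have n5 := log_near (p := p) (n4.trans n0)
  generalize ∑' k : ℕ, (-1 : L) ^ k * (j η ^ N - 1) ^ (k + 1) / ((k : L) + 1) = T at n5 ⊢
  have e3 : (p : L)⁻¹ * ((N : L)⁻¹ * T) - ((q * c : ℤ) : L)⁻¹ * j A =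
      ((q : L) * c)⁻¹ * j z * p +
        (N : L)⁻¹ * (p * (u * u * j w) + (p : L)⁻¹ * (T - (j η ^ N - 1))) := by
    have z4 : (N : L) = q * e := by rw [hN, Nat.cast_mul]
    have z5 : (e : L) ≠ 0 := fun h => z1 (by rw [z4, h, mul_zero])
    rw [e2, z4]
    generalize u * u * j w = v
    rw [hu]
    push_cast
    field_simp
    ring
  rw [e3]
  refine add_le (mul_le (mul_le (by simp [n2, n3]) (hj _)) (by linarith))
    (mul_le (by simp [n1]) (add_le (by linarith) ?_))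
  rw [norm_mul, norm_inv, inv_mul_le_iff₀ p0]
  exact n5.trans (by gcongr)

theorem sgn_add (a b : ZMod 2) : (-1 : L) ^ (a + b).val = (-1) ^ a.val * (-1) ^ b.val := by
  have : ∀ a b : ZMod 2, (-1 : ℤ) ^ (a + b).val = (-1) ^ a.val * (-1) ^ b.val := by decide
  simpa using congrArg (Int.cast : ℤ → L) (this a b)

theorem sgn_sq (a : ZMod 2) : (-1 : L) ^ a.val * (-1) ^ a.val = 1 := by
  rw [← pow_add, ← two_mul, pow_mul]; simp

theorem sgn_ne (a b : ZMod 2) (h : a ≠ b) : 1 + (-1 : L) ^ a.val * (-1) ^ b.val = 0 := by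
  have : ∀ a b : ZMod 2, a ≠ b → 1 + (-1 : ℤ) ^ a.val * (-1) ^ b.val = 0 := by decide
  simpa using congrArg (Int.cast : ℤ → L) (this a b h)

end REGx

open REGx IsUltrametricDist Matrix in
theorem p_REG :
    S_REG := by
  intro t K _ _ d r p η z c a h ht hp h2 hd hc ha hη _ L _ _ _ _ ι
  classical
  have hp' := Nat.prime_iff_prime_int.1 hp
  have n2 : ¬ (p : ℤ) ∣ 2 ^ t := fun e =>
    h2 ((Nat.prime_dvd_prime_iff_eq hp Nat.prime_two).1 (by exact_mod_cast hp'.dvd_of_dvd_pow e))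
  have hr : ∀ (j : 𝓞 K →+* L) i, ‖j (r i)‖ = 1 := fun j i => by
    have := norm_one' (L := L) (hd i)
    rwa [← map_intCast j, ← h.sq, map_pow, norm_pow, pow_eq_one_iff_of_nonneg (norm_nonneg _)
      two_ne_zero] at this
  have hj : ∀ (j : 𝓞 K →+* L) x, ‖j x‖ ≤ 1 := fun j x => by
    obtain ⟨n, hn⟩ := h.gen x
    have := congrArg (fun y => ‖j y‖) hn
    simp only [map_mul, map_intCast, map_sum, map_prod, norm_mul] at this
    rw [norm_one' (p := p) (fun e => (hp'.dvd_or_dvd e).elim n2 fun e =>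
      let ⟨i, _, e⟩ := hp'.exists_mem_finset_dvd e; hd i e), one_mul] at this
    rw [this]
    exact norm_sum_le_of_forall_le_of_nonneg zero_le_one fun S _ =>
      mul_le (norm_intCast_le_one L _) (by simp [norm_prod, hr])
  have := h.gal
  have hG : Fintype.card (K ≃ₐ[ℚ] K) = Module.finrank ℚ K := by
    rw [← IsGalois.card_aut_eq_finrank, Nat.card_eq_fintype_card]
  have hq : ∀ n, n ≠ 0 → ¬ p ∣ p ^ n - 1 := fun n hn e => hp.one_lt.ne' (Nat.dvd_one.1
    ((Nat.dvd_add_right e).1 (by rw [Nat.sub_add_cancel (Nat.one_le_pow _ _ hp.pos)]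
                                 exact dvd_pow_self p hn)))
  obtain ⟨e, he⟩ : p ^ 2 - 1 ∣ p ^ Module.finrank ℚ K - 1 :=
    Nat.pow_sub_one_dvd_pow_sub_one _ (h.deg ▸ dvd_pow_self 2 ht)
  obtain ⟨E, hE⟩ := h.grp
  obtain ⟨f⟩ : Nonempty ((K ≃ₐ[ℚ] K) ≃ Finset (Fin t)) :=
    Fintype.card_eq.1 (by rw [hG, h.deg, Fintype.card_finset, Fintype.card_fin])
  let X : Matrix (K ≃ₐ[ℚ] K) (K ≃ₐ[ℚ] K) L :=
    of fun σ S => ∏ i ∈ f S, (-1) ^ ((E σ).toAdd i).val
  let κ : L := (((p ^ 2 - 1 : ℕ) * c : ℤ) : L)⁻¹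
  let D : (K ≃ₐ[ℚ] K) → L := fun S => κ * (a (f S) * ∏ i ∈ f S, ι (r i))
  have hκ : ‖κ‖ = 1 := by
    rw [norm_inv, norm_one' (p := p) fun e => (hp'.dvd_or_dvd e).elim
      (fun e => hq 2 two_ne_zero (by exact_mod_cast e)) hc, inv_one]
  have hD : ∀ S, ‖D S‖ = 1 := fun S => by
    have : ∀ i, ‖ι (r i)‖ = 1 := hr (ι.comp (algebraMap (𝓞 K) K))
    simp [D, hκ, norm_one' (ha _), norm_prod, this]
  have hX : X * Xᵀ = ((2 ^ t : ℤ) : L) • (1 : Matrix _ _ L) := by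
    ext σ τ
    have : (X * Xᵀ) σ τ =
        ∏ i, (1 + (-1 : L) ^ ((E σ).toAdd i).val * (-1) ^ ((E τ).toAdd i).val) := by
      rw [Finset.prod_one_add, Finset.powerset_univ, ← f.sum_comp, mul_apply]
      exact Finset.sum_congr rfl fun S _ => Finset.prod_mul_distrib.symm
    rw [this, Matrix.smul_apply, one_apply]
    split_ifs with e
    · simp [e, sgn_sq, one_add_one_eq_two]
    · obtain ⟨i, hi⟩ := Function.ne_iff.1
        (fun h => e (E.injective (Multiplicative.toAdd.injective h)))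
      rw [smul_zero, Finset.prod_eq_zero (Finset.mem_univ i) (sgn_ne _ _ hi)]
  have hF : ∀ σ τ, (X * diagonal D * Xᵀ) σ τ = κ * ((ι.comp (σ * τ : K ≃ₐ[ℚ] K)).comp
      (algebraMap (𝓞 K) K)) (∑ S, a S * ∏ i ∈ S, r i) := fun σ τ => by
    rw [map_sum, ← f.sum_comp, Finset.mul_sum, mul_apply]
    refine Finset.sum_congr rfl fun S _ => ?_
    have : ∀ i, ((ι.comp (σ * τ : K ≃ₐ[ℚ] K)).comp (algebraMap (𝓞 K) K)) (r i) =
        (-1) ^ ((E σ).toAdd i).val * (-1) ^ ((E τ).toAdd i).val * ι (r i) := fun i => by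
      change ι ((σ * τ) (r i)) = _
      rw [hE, map_mul E, toAdd_mul, Pi.add_apply, map_mul, map_pow, map_neg, map_one, sgn_add]
    rw [mul_diagonal, map_mul, map_intCast, map_prod]
    simp only [this, Finset.prod_mul_distrib, X, D, transpose_apply, of_apply]
    ring
  rw [← congrArg (fun n => (p : L)⁻¹ ^ n) hG, ← det_smul]
  refine det_near _ (X * diagonal D * Xᵀ) (fun σ τ => hF σ τ ▸ mul_le hκ.le (hj _ _))
    (fun σ τ => ?_) ?_
  · rw [hF, Matrix.smul_apply, of_apply, smul_eq_mul]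
    have := key h2 ((ι.comp (σ * τ : K ≃ₐ[ℚ] K)).comp (algebraMap (𝓞 K) K)) (hj _) he
      (hq _ Module.finrank_pos.ne') hc hη
    exact this
  · rw [det_mul, det_mul, mul_right_comm, ← det_mul, hX, det_smul, det_one, det_diagonal]
    simp only [norm_mul, norm_pow, norm_prod, hD, norm_one' n2]
    simp

end Pool.Agent.P.MP_657a03_nt.G5
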