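import Pool.Agent.P.MP_657a03_nt.G5.If

/-! Step SIG. -/

set_option autoImplicit false

namespace Pool.Agent.P.MP_657a03_nt.G5

open NumberField Polynomial

theorem p_SIG : S_SIG := by
  intro t K _ _ d r h
  have hsq : ∀ (φ : K →+* ℂ) i, φ (r i) ^ 2 = d i := fun φ i => by
    simpa using congrArg (fun x : 𝓞 K => φ x) (h.sq i)
  refine ⟨fun hd => ⟨fun w => ?_⟩, fun ⟨i, hi⟩ => ?_⟩
  · rw [InfinitePlace.isReal_iff, ComplexEmbedding.isReal_iff]
    set φ := w.embedding
    have h1 : ∀ i, (starRingEnd ℂ) (φ (r i)) = φ (r i) := fun i => by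
      have h2 := congrArg Complex.re (hsq φ i)
      have h3 := congrArg Complex.im (hsq φ i)
      simp only [sq, Complex.mul_re, Complex.mul_im, Complex.intCast_re, Complex.intCast_im]
        at h2 h3
      have h4 : (0 : ℝ) < d i := by exact_mod_cast hd i
      rw [Complex.conj_eq_iff_im]
      by_contra h5
      have h6 : (φ (r i)).re = 0 := by
        apply mul_right_cancel₀ h5
        linarith
      rw [h6] at h2
      nlinarith [mul_self_nonneg (φ (r i)).im]
    have h2 : ∀ x : 𝓞 K, (starRingEnd ℂ) (φ x) = φ x := fun x => by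
      obtain ⟨n, hn⟩ := h.gen x
      have h3 := congrArg (fun x : 𝓞 K => φ x) hn
      have h0 : ((2 ^ t * ∏ i, d i : ℤ) : ℂ) ≠ 0 := Int.cast_ne_zero.2
        (mul_ne_zero (by positivity) (Finset.prod_ne_zero_iff.2 fun i _ => h.ne i))
      simp only [map_mul, map_intCast, map_sum, map_prod] at h3
      apply mul_left_cancel₀ h0
      have h4 := congrArg (starRingEnd ℂ) h3
      simp only [map_mul, map_intCast, map_sum, map_prod] at h4
      rw [h4, h3]
      exact Finset.sum_congr rfl fun S _ => congrArg _ (Finset.prod_congr rfl fun i _ => h1 i)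
    ext x
    obtain ⟨a, b, -, rfl⟩ := IsFractionRing.div_surjective (A := 𝓞 K) x
    rw [ComplexEmbedding.conjugate_coe_eq, map_div₀, map_div₀]
    exact congrArg₂ _ (h2 a) (h2 b)
  · have : IsTotallyComplex K := ⟨fun w => by
      rw [← InfinitePlace.not_isReal_iff_isComplex, InfinitePlace.isReal_iff,
        ComplexEmbedding.isReal_iff]
      intro hw
      have h1 := DFunLike.congr_fun hw (r i : K)
      rw [ComplexEmbedding.conjugate_coe_eq, Complex.conj_eq_iff_im] at h1
      have h2 := congrArg Complex.re (hsq w.embedding i)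
      simp only [sq, Complex.mul_re, Complex.intCast_re, h1] at h2
      have h4 : (d i : ℝ) < 0 := by exact_mod_cast hi
      nlinarith [mul_self_nonneg (w.embedding (r i)).re]⟩
    exact ⟨this, by rw [← h.deg, IsTotallyComplex.finrank]⟩

end Pool.Agent.P.MP_657a03_nt.G5
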