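import Pool.Agent.P.MP_657a03_nt.G5.If

/-! Step CNT. -/

set_option autoImplicit false
set_option linter.unusedSectionVars false

namespace Pool.Agent.P.MP_657a03_nt.G5

open NumberField Polynomial

namespace CNTx

theorem roots_le (W : ℤ[X]) (p : ℕ) (hp : p.Prime) (hW : ¬ (p : ℤ) ∣ W.leadingCoeff) :
    ((Finset.range p).filter fun r : ℕ => (p : ℤ) ∣ W.eval (r : ℤ)).card ≤ W.natDegree := by
  classical
  have := Fact.mk hp
  set V : (ZMod p)[X] := W.map (Int.castRingHom (ZMod p)) with hV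
  have hV0 : V ≠ 0 := by
    intro h
    apply hW
    have := congrArg (fun q => q.coeff W.natDegree) h
    simp only [hV, coeff_map, coeff_zero, eq_intCast] at this
    exact (ZMod.intCast_zmod_eq_zero_iff_dvd _ p).1 this
  calc _ ≤ V.roots.toFinset.card := by
        apply Finset.card_le_card_of_injOn (fun r : ℕ => (r : ZMod p))
        · intro r hr
          simp only [Finset.coe_filter, Finset.mem_range, Set.mem_ofPred_eq] at hr
          simp only [Finset.mem_coe, Multiset.mem_toFinset, mem_roots hV0, IsRoot.def]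
          have h1 : V.eval ((r : ℤ) : ZMod p) = ((W.eval (r : ℤ) : ℤ) : ZMod p) := by
            rw [hV, eval_intCast_map]; simp
          rw [Int.cast_natCast] at h1
          rw [h1]
          exact (ZMod.intCast_zmod_eq_zero_iff_dvd _ p).2 hr.2
        · intro a ha b hb hab
          simp only [Finset.coe_filter, Finset.mem_range, Set.mem_ofPred_eq] at ha hb
          have := (ZMod.natCast_eq_natCast_iff' a b p).1 hab
          rwa [Nat.mod_eq_of_lt ha.1, Nat.mod_eq_of_lt hb.1] at this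
    _ ≤ Multiset.card V.roots := Multiset.toFinset_card_le _
    _ ≤ V.natDegree := card_roots' V
    _ ≤ W.natDegree := natDegree_map_le

theorem bad1 (W : ℤ[X]) (p N : ℕ) (hp : p.Prime) (hW : ¬ (p : ℤ) ∣ W.leadingCoeff) :
    ((Finset.range N).filter fun m : ℕ => (p : ℤ) ∣ W.eval (m : ℤ)).card ≤
      W.natDegree * (N / p + 1) := by
  classical
  calc _ ≤ (((Finset.range p).filter fun r : ℕ => (p : ℤ) ∣ W.eval (r : ℤ)) ×ˢ
        Finset.range (N / p + 1)).card := by
        apply Finset.card_le_card_of_injOn (fun m : ℕ => (m % p, m / p))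
        · intro m hm
          simp only [Finset.coe_filter, Finset.mem_range, Set.mem_ofPred_eq] at hm
          simp only [Finset.coe_product, Finset.coe_filter, Finset.mem_range, Set.mem_prod,
            Set.mem_ofPred_eq, Finset.coe_range, Set.mem_Iio]
          refine ⟨⟨Nat.mod_lt _ hp.pos, ?_⟩, Nat.lt_succ_of_le (Nat.div_le_div_right hm.1.le)⟩
          have h1 : (p : ℤ) ∣ (m : ℤ) - ((m % p : ℕ) : ℤ) := by
            refine ⟨((m / p : ℕ) : ℤ), ?_⟩
            have := Nat.mod_add_div m p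
            have h2 : ((m % p : ℕ) : ℤ) + p * ((m / p : ℕ) : ℤ) = m := by exact_mod_cast this
            linarith
          have h3 := h1.trans (sub_dvd_eval_sub (m : ℤ) ((m % p : ℕ) : ℤ) W)
          have h4 := dvd_sub hm.2 h3
          simpa using h4
        · intro a _ b _ hab
          simp only [Prod.mk.injEq] at hab
          rw [← Nat.mod_add_div a p, ← Nat.mod_add_div b p, hab.1, hab.2]
    _ ≤ _ := by
        rw [Finset.card_product, Finset.card_range]
        exact Nat.mul_le_mul_right _ (roots_le W p hp hW)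

theorem bad2 (F : ℤ[X]) (p N : ℕ) (hp : p.Prime) :
    ((Finset.range N).filter fun m : ℕ => ¬ (p : ℤ) ∣ (derivative F).eval (m : ℤ) ∧
      (p : ℤ) ^ 2 ∣ F.eval (m : ℤ)).card ≤ p * (N / p ^ 2 + 1) := by
  classical
  have hpZ : Prime (p : ℤ) := Nat.prime_iff_prime_int.1 hp
  calc _ ≤ (Finset.range p ×ˢ Finset.range (N / p ^ 2 + 1)).card := by
        apply Finset.card_le_card_of_injOn (fun m : ℕ => (m % p, m / p ^ 2))
        · intro m hm
          simp only [Finset.coe_filter, Finset.mem_range, Set.mem_ofPred_eq] at hm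
          simp only [Finset.coe_product, Set.mem_prod, Finset.coe_range, Set.mem_Iio]
          exact ⟨Nat.mod_lt _ hp.pos, Nat.lt_succ_of_le (Nat.div_le_div_right hm.1.le)⟩
        · intro a ha b hb hab
          simp only [Finset.coe_filter, Finset.mem_range, Set.mem_ofPred_eq] at ha hb
          simp only [Prod.mk.injEq] at hab
          obtain ⟨t, ht⟩ : (p : ℤ) ∣ (b : ℤ) - a := (Nat.modEq_iff_dvd.1 hab.1)
          obtain ⟨k, hk⟩ := F.binomExpansion (a : ℤ) ((b : ℤ) - a)
          rw [add_sub_cancel, ht] at hk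
          have h1 : (p : ℤ) ^ 2 ∣ (derivative F).eval (a : ℤ) * (p * t) := by
            have h2 : (derivative F).eval (a : ℤ) * (p * t) =
                F.eval (b : ℤ) - F.eval (a : ℤ) - (p : ℤ) ^ 2 * (k * t ^ 2) := by
              rw [hk]; ring
            rw [h2]
            exact dvd_sub (dvd_sub hb.2.2 ha.2.2) (dvd_mul_right _ _)
          have h3 : (p : ℤ) ∣ (derivative F).eval (a : ℤ) * t := by
            have h4 : (p : ℤ) * p ∣ p * ((derivative F).eval (a : ℤ) * t) := by
              have : (p : ℤ) * ((derivative F).eval (a : ℤ) * t) =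
                (derivative F).eval (a : ℤ) * (p * t) := by ring
              rw [this, ← sq]; exact h1
            exact (mul_dvd_mul_iff_left hpZ.ne_zero).1 h4
          obtain ⟨u, hu⟩ := (hpZ.dvd_or_dvd h3).resolve_left ha.2.1
          have h5 : a ≡ b [MOD p ^ 2] := by
            rw [Nat.modEq_iff_dvd]
            refine ⟨u, ?_⟩
            rw [ht, hu]; push_cast; ring
          rw [← Nat.mod_add_div a (p ^ 2), ← Nat.mod_add_div b (p ^ 2), hab.2, h5]
    _ ≤ _ := by rw [Finset.card_product, Finset.card_range, Finset.card_range]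

end CNTx

theorem p_CNT (hLUC : S_LUC) :
    S_CNT := by
  classical
  intro ι _ s G hG hs
  set W : ℤ[X] := G * ∏ i, (derivative (s i) * ((s i) ^ 2 - 4)) with hWdef
  have hW0 : W ≠ 0 := by
    refine mul_ne_zero hG (Finset.prod_ne_zero_iff.2 fun i _ => mul_ne_zero (hs i) ?_)
    intro h
    have h1 := congrArg derivative h
    have h2 : derivative ((s i) ^ 2 - 4) = 2 * s i * derivative (s i) := by
      have h4 : derivative (4 : ℤ[X]) = 0 := derivative_ofNat 4
      rw [derivative_sub, h4, sq, derivative_mul]; ring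
    rw [h2, derivative_zero] at h1
    rcases mul_eq_zero.1 h1 with h3 | h3
    · rcases mul_eq_zero.1 h3 with h4 | h4
      · exact two_ne_zero h4
      · apply hs i; rw [h4, derivative_zero]
    · exact hs i h3
  refine ⟨W.leadingCoeff.natAbs + 4 * (W.natDegree + Fintype.card ι) + 2, ?_⟩
  intro p hP hp N hN
  have hlc : ¬ (p : ℤ) ∣ W.leadingCoeff := by
    intro h
    have h1 : p ∣ W.leadingCoeff.natAbs := Int.natCast_dvd.1 h
    have h2 : 0 < W.leadingCoeff.natAbs := Int.natAbs_pos.2 (leadingCoeff_ne_zero.2 hW0)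
    have := Nat.le_of_dvd h2 h1
    omega
  have hp2 : p ≠ 2 := by omega
  have hpZ : Prime (p : ℤ) := Nat.prime_iff_prime_int.1 hp
  set good : Finset ℕ := (Finset.range N).filter fun m : ℕ => ¬ (p : ℤ) ∣ G.eval (m : ℤ) ∧ ∀ i,
        ¬ (p : ℤ) ∣ (s i).eval (m : ℤ) ^ 2 - 4 ∧
        ¬ (p : ℤ) ^ 2 ∣ (U (p ^ 2 - 1)).eval ((s i).eval (m : ℤ)) with hgood
  have hset : {m : ℕ | m < N ∧ ¬ (p : ℤ) ∣ G.eval (m : ℤ) ∧ ∀ i,
        ¬ (p : ℤ) ∣ (s i).eval (m : ℤ) ^ 2 - 4 ∧
        ¬ (p : ℤ) ^ 2 ∣ (U (p ^ 2 - 1)).eval ((s i).eval (m : ℤ))} = (good : Set ℕ) := by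
    ext m; simp [hgood]
  rw [hset, Set.ncard_coe_finset]
  set A : Finset ℕ := (Finset.range N).filter fun m : ℕ => (p : ℤ) ∣ W.eval (m : ℤ) with hA
  set B : ι → Finset ℕ := fun i => (Finset.range N).filter fun m : ℕ =>
    ¬ (p : ℤ) ∣ (derivative ((U (p ^ 2 - 1)).comp (s i))).eval (m : ℤ) ∧
      (p : ℤ) ^ 2 ∣ ((U (p ^ 2 - 1)).comp (s i)).eval (m : ℤ) with hB
  have hcov : Finset.range N ⊆ good ∪ (A ∪ Finset.univ.biUnion B) := by
    intro m hm
    by_cases h1 : (p : ℤ) ∣ W.eval (m : ℤ)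
    · exact Finset.mem_union_right _ (Finset.mem_union_left _ (Finset.mem_filter.2 ⟨hm, h1⟩))
    have hWe : W.eval (m : ℤ) = G.eval (m : ℤ) *
        ∏ i, ((derivative (s i)).eval (m : ℤ) * ((s i).eval (m : ℤ) ^ 2 - 4)) := by
      rw [hWdef, eval_mul, eval_prod]
      simp
    have hfac : ∀ i, ¬ (p : ℤ) ∣ (derivative (s i)).eval (m : ℤ) * ((s i).eval (m : ℤ) ^ 2 - 4) := by
      intro i h
      apply h1
      rw [hWe]
      exact (h.trans (Finset.dvd_prod_of_mem
        (fun i => (derivative (s i)).eval (m : ℤ) * ((s i).eval (m : ℤ) ^ 2 - 4))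
        (Finset.mem_univ i))).mul_left _
    have hG1 : ¬ (p : ℤ) ∣ G.eval (m : ℤ) := fun h => h1 (by rw [hWe]; exact h.mul_right _)
    have h4 : ∀ i, ¬ (p : ℤ) ∣ (s i).eval (m : ℤ) ^ 2 - 4 := fun i h => hfac i (h.mul_left _)
    have h5 : ∀ i, ¬ (p : ℤ) ∣ (derivative (s i)).eval (m : ℤ) := fun i h => hfac i (h.mul_right _)
    by_cases h6 : ∀ i, ¬ (p : ℤ) ^ 2 ∣ (U (p ^ 2 - 1)).eval ((s i).eval (m : ℤ))
    · exact Finset.mem_union_left _ (Finset.mem_filter.2 ⟨hm, hG1, fun i => ⟨h4 i, h6 i⟩⟩)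
    · push Not at h6
      obtain ⟨i, hi⟩ := h6
      refine Finset.mem_union_right _ (Finset.mem_union_right _
        (Finset.mem_biUnion.2 ⟨i, Finset.mem_univ _, Finset.mem_filter.2 ⟨hm, ?_, ?_⟩⟩))
      · rw [derivative_comp, eval_mul, eval_comp]
        intro h
        rcases hpZ.dvd_or_dvd h with h | h
        · exact h5 i h
        · exact (hLUC p _ hp hp2 (h4 i)).2.2 h
      · rw [eval_comp]; exact hi
  have hc1 := Finset.card_le_card hcov
  rw [Finset.card_range] at hc1
  have hc2 := hc1.trans ((Finset.card_union_le _ _).trans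
    (Nat.add_le_add_left (Finset.card_union_le _ _) _))
  have hA1 : A.card ≤ W.natDegree * (N / p + 1) := CNTx.bad1 W p N hp hlc
  have hB1 : (Finset.univ.biUnion B).card ≤ Fintype.card ι * (p * (N / p ^ 2 + 1)) := by
    refine Finset.card_biUnion_le.trans ?_
    refine (Finset.sum_le_card_nsmul _ _ _ fun i _ => CNTx.bad2 _ p N hp).trans ?_
    simp
  have hq1 : p ≤ N / p := (Nat.le_div_iff_mul_le hp.pos).2 (by rw [← sq]; exact hN)
  have hq2 : p * (N / p ^ 2) ≤ N / p := by
    rw [sq, ← Nat.div_div_eq_div_mul]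
    exact Nat.mul_div_le _ _
  have hq3 : p * (N / p) ≤ N := Nat.mul_div_le _ _
  have hq4 : N / p + 1 ≤ 2 * (N / p) := by have := hp.two_le; omega
  have hq5 : p * (N / p ^ 2 + 1) ≤ 2 * (N / p) := by rw [mul_add, mul_one]; omega
  have hq6 : A.card ≤ W.natDegree * (2 * (N / p)) := hA1.trans (Nat.mul_le_mul_left _ hq4)
  have hq7 : (Finset.univ.biUnion B).card ≤ Fintype.card ι * (2 * (N / p)) :=
    hB1.trans (Nat.mul_le_mul_left _ hq5)
  have hq8 : 4 * (W.natDegree + Fintype.card ι) * (N / p) ≤ p * (N / p) :=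
    Nat.mul_le_mul_right _ (by omega)
  nlinarith

end Pool.Agent.P.MP_657a03_nt.G5
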