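import Pool.Agent.P.MP_657a03_nt.G5.If

/-! The fifteen polynomial units. -/

set_option autoImplicit false

namespace Pool.Agent.P.MP_657a03_nt.G5

open Polynomial

/-- the radicands -/
noncomputable def dd : Fin 5 → ℤ[X] :=
  ![-1, 221 + 900 * X + 900 * X ^ 2, 252 + 960 * X + 900 * X ^ 2, 192 + 840 * X + 900 * X ^ 2,
    63360 + 483600 * X + 1375200 * X ^ 2 + 1728000 * X ^ 3 + 810000 * X ^ 4]

/-- the traces -/
noncomputable def ss (b1 b2 b3 b4 : Bool) : ℤ[X] :=
  if b1 then
    if b2 then
      if b3 then
        if b4 then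
          2858 + 18300 * X + 38700 * X ^ 2 + 27000 * X ^ 3
        else
          1090 + 6680 * X + 13500 * X ^ 2 + 9000 * X ^ 3
      else
        if b4 then
          49502 + 400500 * X + 1210500 * X ^ 2 + 1620000 * X ^ 3 + 810000 * X ^ 4
        else
          236 + 930 * X + 900 * X ^ 2
    else
      if b3 then
        if b4 then
          9722 + 79380 * X + 241380 * X ^ 2 + 324000 * X ^ 3 + 162000 * X ^ 4
        else
          206 + 870 * X + 900 * X ^ 2
      else
        if b4 then
          3742 + 21900 * X + 42300 * X ^ 2 + 27000 * X ^ 3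
        else
          15 + 30 * X
  else
    if b2 then
      if b3 then
        if b4 then
          1538 + 9600 * X + 19800 * X ^ 2 + 13500 * X ^ 3
        else
          110 + 450 * X + 450 * X ^ 2
      else
        if b4 then
          222 + 900 * X + 900 * X ^ 2
        else
          16 + 30 * X
    else
      if b3 then
        if b4 then
          218 + 900 * X + 900 * X ^ 2
        else
          14 + 30 * X
      else
        if b4 then
          1762 + 10500 * X + 20700 * X ^ 2 + 13500 * X ^ 3
        else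
          0

/-- the square roots -/
noncomputable def gg (b1 b2 b3 b4 : Bool) : ℤ[X] :=
  if b1 then
    if b2 then
      if b3 then
        if b4 then
          2352430080 + 38457129600 * X + 274202769600 * X ^ 2 + 1113740280000 * X ^ 3 + 2818592640000 * X ^ 4 + 4551147000000 * X ^ 5 + 4578849000000 * X ^ 6 + 2624400000000 * X ^ 7 + 656100000000 * X ^ 8
        else
          3564288 + 43687200 * X + 222157200 * X ^ 2 + 599940000 * X ^ 3 + 907470000 * X ^ 4 + 729000000 * X ^ 5 + 243000000 * X ^ 6
      else
        if b4 then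
          2940537600 + 46601143200 * X + 322393428000 * X ^ 2 + 1271698704000 * X ^ 3 + 3128344740000 * X ^ 4 + 4914553500000 * X ^ 5 + 4815045000000 * X ^ 6 + 2690010000000 * X ^ 7 + 656100000000 * X ^ 8
        else
          55692 + 438960 * X + 1289700 * X ^ 2 + 1674000 * X ^ 3 + 810000 * X ^ 4
    else
      if b3 then
        if b4 then
          504092160 + 8168800320 * X + 57734791200 * X ^ 2 + 232456694400 * X ^ 3 + 583179912000 * X ^ 4 + 933542820000 * X ^ 5 + 931224600000 * X ^ 6 + 529254000000 * X ^ 7 + 131220000000 * X ^ 8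
        else
          42432 + 358440 * X + 1127700 * X ^ 2 + 1566000 * X ^ 3 + 810000 * X ^ 4
      else
        if b4 then
          14002560 + 163899600 * X + 796183200 * X ^ 2 + 2054808000 * X ^ 3 + 2971890000 * X ^ 4 + 2284200000 * X ^ 5 + 729000000 * X ^ 6
        else
          221 + 900 * X + 900 * X ^ 2
  else
    if b2 then
      if b3 then
        if b4 then
          85155840 + 1204992000 * X + 7282108800 * X ^ 2 + 24364584000 * X ^ 3 + 48745800000 * X ^ 4 + 58320000000 * X ^ 5 + 38637000000 * X ^ 6 + 10935000000 * X ^ 7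
        else
          24192 + 198000 * X + 603000 * X ^ 2 + 810000 * X ^ 3 + 405000 * X ^ 4
      else
        if b4 then
          887040 + 8671200 * X + 33760800 * X ^ 2 + 65448000 * X ^ 3 + 63180000 * X ^ 4 + 24300000 * X ^ 5
        else
          252 + 960 * X + 900 * X ^ 2
    else
      if b3 then
        if b4 then
          760320 + 7704000 * X + 31010400 * X ^ 2 + 61992000 * X ^ 3 + 61560000 * X ^ 4 + 24300000 * X ^ 5
        else
          192 + 840 * X + 900 * X ^ 2
      else
        if b4 then
          443520 + 4335600 * X + 16880400 * X ^ 2 + 32724000 * X ^ 3 + 31590000 * X ^ 4 + 12150000 * X ^ 5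
        else
          0

theorem data_id (b1 b2 b3 b4 : Bool) (h : (b1 || b2 || b3 || b4) = true) :
    (ss b1 b2 b3 b4 ^ 2 - 4) * ((if b1 then dd 1 else 1) * (if b2 then dd 2 else 1) *
      (if b3 then dd 3 else 1) * (if b4 then dd 4 else 1)) = gg b1 b2 b3 b4 ^ 2 := by
  have h1 : dd 1 = 221 + 900 * X + 900 * X ^ 2 := rfl
  have h2 : dd 2 = 252 + 960 * X + 900 * X ^ 2 := rfl
  have h3 : dd 3 = 192 + 840 * X + 900 * X ^ 2 := rfl
  have h4 : dd 4 = 63360 + 483600 * X + 1375200 * X ^ 2 + 1728000 * X ^ 3 + 810000 * X ^ 4 := rfl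
  rw [h1, h2, h3, h4]
  cases b1 <;> cases b2 <;> cases b3 <;> cases b4 <;>
    first
    | exact absurd h (by decide)
    | (simp only [ss, gg, Bool.false_eq_true, if_true, if_false]; ring)

theorem data_der (b1 b2 b3 b4 : Bool) (h : (b1 || b2 || b3 || b4) = true) :
    derivative (ss b1 b2 b3 b4) ≠ 0 := by
  intro h0
  have h1 := congrArg (eval 0) h0
  cases b1 <;> cases b2 <;> cases b3 <;> cases b4 <;>
    first
    | exact absurd h (by decide)
    | (simp [ss] at h1)

theorem data_pos (b1 b2 b3 b4 : Bool) (h : (b1 || b2 || b3 || b4) = true) (m : ℕ) :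
    2 < (ss b1 b2 b3 b4).eval (m : ℤ) := by
  have h1 : (0 : ℤ) ≤ m := Int.natCast_nonneg m
  have h2 := pow_nonneg h1 2
  have h3 := pow_nonneg h1 3
  have h4 := pow_nonneg h1 4
  cases b1 <;> cases b2 <;> cases b3 <;> cases b4 <;>
    first
    | exact absurd h (by decide)
    | (simp only [ss, Bool.false_eq_true, if_true, if_false, eval_add, eval_mul, eval_pow, eval_X,
        eval_ofNat]; linarith)

theorem p_DATA : S_DATA := by
  refine ⟨dd, fun S => ss (1 ∈ S) (2 ∈ S) (3 ∈ S) (4 ∈ S),
    fun S => gg (1 ∈ S) (2 ∈ S) (3 ∈ S) (4 ∈ S), rfl, ?_, ?_⟩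
  · intro i hi m
    have h1 : (0 : ℤ) ≤ m := Int.natCast_nonneg m
    fin_cases i
    · exact absurd rfl hi
    all_goals
      simp only [dd, Fin.reduceFinMk, Matrix.cons_val, eval_add, eval_mul, eval_pow, eval_X,
        eval_ofNat]
      positivity
  · intro S hS h0
    have hb : (decide (1 ∈ S) || decide (2 ∈ S) || decide (3 ∈ S) || decide (4 ∈ S)) = true := by
      obtain ⟨i, hi⟩ := hS
      fin_cases i <;> simp_all
    refine ⟨?_, data_der _ _ _ _ hb, data_pos _ _ _ _ hb⟩
    rw [← data_id _ _ _ _ hb, ← Finset.univ_inter S, ← Finset.prod_ite_mem, Fin.prod_univ_five]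
    simp [h0]

end Pool.Agent.P.MP_657a03_nt.G5
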