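import Pool.Agent.P.MP_657a03_nt.G5.TFROB

/-! Step IND. -/

set_option autoImplicit false

namespace Pool.Agent.P.MP_657a03_nt.G5

open NumberField Polynomial

theorem prod_one_add_mul {R ι : Type} [CommRing R] (p : R) (y : ι → R) (T : Finset ι) :
    ∃ z, ∏ i ∈ T, (1 + p * y i) = 1 + p * ∑ i ∈ T, y i + p ^ 2 * z := by
  classical
  induction T using Finset.induction_on with
  | empty => exact ⟨0, by simp⟩
  | insert a T ha ih =>
    obtain ⟨z, hz⟩ := ih
    rw [Finset.prod_insert ha, Finset.sum_insert ha, hz]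
    exact ⟨z + y a * ∑ i ∈ T, y i + p * y a * z, by ring⟩

namespace INDc

theorem prod_pow {R ι : Type} [CommRing R] [Fintype ι] (p : R) (y : ι → R) (k : ι → ℕ) :
    ∃ z, ∏ i, (1 + p * y i) ^ k i = 1 + p * ∑ i, k i * y i + p ^ 2 * z := by
  have h : ∀ i, ∃ w, (1 + p * y i) ^ k i = 1 + p * (k i * y i + p * w) := fun i => by
    obtain ⟨w, hw⟩ := prod_one_add_mul p (fun _ => y i) (Finset.range (k i))
    simp only [Finset.prod_const, Finset.card_range, Finset.sum_const, nsmul_eq_mul] at hw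
    exact ⟨w, by rw [hw]; ring⟩
  choose w hw using h
  obtain ⟨z, hz⟩ := prod_one_add_mul p (fun i => k i * y i + p * w i) Finset.univ
  refine ⟨z + ∑ i, w i, ?_⟩
  rw [Finset.prod_congr rfl fun i _ => hw i, hz, Finset.sum_add_distrib, ← Finset.mul_sum]
  ring

theorem dvd_coef {t p : ℕ} {K : Type} [Field K] [NumberField K] {d : Fin t → ℤ}
    {r : Fin t → 𝓞 K} (h : MQ K d r) (hp : p.Prime) (hp2 : p ≠ 2) (hd : ∀ i, ¬ (p : ℤ) ∣ d i)
    (b : Finset (Fin t) → ℤ) (hb : (p : 𝓞 K) ∣ ∑ S, b S * ∏ i ∈ S, r i) (S : Finset (Fin t)) :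
    (p : ℤ) ∣ b S := by
  obtain ⟨x, hx⟩ := hb
  obtain ⟨n, hn⟩ := h.gen x
  have h0 := Fintype.linearIndependent_iff.1 h.ind
    (fun S => (2 ^ t * ∏ i, d i) * b S - p * n S) (by
      simp only [zsmul_eq_mul, Int.cast_sub, sub_mul, Finset.sum_sub_distrib]
      generalize 2 ^ t * ∏ i, d i = N at hn ⊢
      simp only [Int.cast_mul, mul_assoc, ← Finset.mul_sum]
      rw [hx, ← hn, Int.cast_natCast]
      ring) S
  exact ((Nat.prime_iff_prime_int.1 hp).dvd_or_dvd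
    (⟨n S, by linear_combination h0⟩ : (p : ℤ) ∣ (2 ^ t * ∏ i, d i) * b S)).resolve_left
    (not_dvd_N hp hp2 hd Finset.univ t)

theorem sq_one {K : Type} [Field K] [NumberField K] [IsTotallyReal K] {x : K}
    (hx : IsOfFinOrder x) : x ^ 2 = 1 := by
  obtain ⟨w⟩ : Nonempty (InfinitePlace K) := inferInstance
  let φ := InfinitePlace.embedding_of_isReal (IsTotallyReal.isReal w)
  obtain ⟨k, hk, h1⟩ := isOfFinOrder_iff_pow_eq_one.1 hx
  have h2 : |φ x| ^ k = 1 := by rw [← abs_pow, ← map_pow, h1, map_one, abs_one]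
  rw [pow_eq_one_iff_of_nonneg (abs_nonneg _) hk.ne'] at h2
  apply φ.injective
  rw [map_pow, map_one, ← sq_abs, h2, one_pow]

end INDc

open INDc in
theorem p_IND : S_IND := by
  intro t K _ _ d r p η z c a h hR hp hp2 hd hc ha hη
  classical
  have hP := Nat.prime_iff_prime_int.1 hp
  have h0 : (p : 𝓞 K) ≠ 0 := Nat.cast_ne_zero.2 hp.ne_zero
  obtain ⟨y, hy⟩ : (p : 𝓞 K) ∣ η ^ (p ^ 2 - 1) - 1 :=
    (cop_int hp hc).dvd_of_dvd_mul_left ⟨_, by rw [hη, sq, mul_assoc, ← mul_add]⟩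
  have hcy : c * y = ∑ S, a S * ∏ i ∈ S, r i + p * z :=
    mul_left_cancel₀ h0 (by rw [hy] at hη; linear_combination hη)
  have hq : p ^ 2 - 1 ≠ 0 := by
    have : 2 ≤ p ^ 2 := by have := hp.two_le; nlinarith
    omega
  have hne : (η : K) ≠ 0 := fun e => by
    have e' : η = 0 := by exact_mod_cast e
    have := dvd_coef h hp hp2 hd (Pi.single ∅ 1) ⟨-y, by
      rw [Finset.sum_eq_single ∅ (fun S _ hS => by simp [hS]) (by simp)]
      rw [e', zero_pow hq] at hy
      simp only [Pi.single_eq_same, Int.cast_one, Finset.prod_empty]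
      linear_combination -hy⟩ ∅
    simp only [Pi.single_eq_same] at this
    exact hP.not_dvd_one this
  refine ⟨hne, ?_⟩
  obtain ⟨E, hE⟩ := h.grp
  let j : (K ≃ₐ[ℚ] K) → 𝓞 K →+* 𝓞 K := fun σ => RingOfIntegers.mapRingHom (σ : K →+* K)
  let χ : (K ≃ₐ[ℚ] K) → Fin t → ℤ := fun σ i => (-1) ^ ((E σ).toAdd i).val
  have hj : ∀ σ i, j σ (r i) = χ σ i * r i := fun σ i => by
    ext
    simpa [χ, j] using hE σ i
  have step : ∀ n : (K ≃ₐ[ℚ] K) → ℤ, IsOfFinOrder (∏ σ : K ≃ₐ[ℚ] K, (σ η) ^ (n σ)) →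
      ∀ σ, (p : ℤ) ∣ n σ := by
    intro n hn τ
    obtain ⟨e, he⟩ : 2 ∣ p ^ 2 - 1 := by
      have := (hp.odd_of_ne_two hp2).pow (n := 2)
      exact (Nat.Odd.sub_odd this odd_one).two_dvd
    have h1 : ∏ σ : K ≃ₐ[ℚ] K, ((σ η) ^ (n σ)) ^ (p ^ 2 - 1) = 1 := by
      rw [Finset.prod_pow, he, pow_mul, sq_one hn, one_pow]
    have h2 : ∀ σ : K ≃ₐ[ℚ] K, ((1 + p * j σ y : 𝓞 K) : K) = σ η ^ (p ^ 2 - 1) := fun σ => by
      have : (1 + p * y : 𝓞 K) = η ^ (p ^ 2 - 1) := by linear_combination -hy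
      have := congrArg (fun x => (j σ x : K)) this
      simpa [j] using this
    have h3 : ∏ σ, (1 + p * j σ y) ^ (n σ).toNat = ∏ σ, (1 + p * j σ y) ^ (-n σ).toNat := by
      ext
      rw [← one_mul (((∏ σ, (1 + p * j σ y) ^ (-n σ).toNat : 𝓞 K)) : K), ← h1]
      simp only [map_prod, map_pow, h2, ← Finset.prod_mul_distrib]
      refine Finset.prod_congr rfl fun σ _ => ?_
      have : σ η ^ (p ^ 2 - 1) ≠ 0 := pow_ne_zero _ (by simpa using hne)
      rw [← zpow_natCast (σ η ^ n σ), ← zpow_mul, mul_comm (n σ), zpow_mul, zpow_natCast,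
        ← zpow_natCast _ (-n σ).toNat, ← zpow_add₀ this, ← zpow_natCast _ (n σ).toNat]
      congr 1
      have := Int.toNat_sub_toNat_neg (n σ)
      omega
    obtain ⟨z1, e1⟩ := prod_pow (p : 𝓞 K) (fun σ => j σ y) fun σ => (n σ).toNat
    obtain ⟨z2, e2⟩ := prod_pow (p : 𝓞 K) (fun σ => j σ y) fun σ => (-n σ).toNat
    have h4 : ∑ σ, n σ * j σ y = p * (z2 - z1) := by
      apply mul_left_cancel₀ h0
      have : ∑ σ, (n σ : 𝓞 K) * j σ y = ∑ σ, ((n σ).toNat : 𝓞 K) * j σ y -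
          ∑ σ, ((-n σ).toNat : 𝓞 K) * j σ y := by
        rw [← Finset.sum_sub_distrib]
        refine Finset.sum_congr rfl fun σ _ => ?_
        rw [← sub_mul, ← Int.cast_natCast, ← Int.cast_natCast (-n σ).toNat, ← Int.cast_sub,
          Int.toNat_sub_toNat_neg]
      rw [this]
      linear_combination e2 - e1 + h3
    have h5 : ∀ S : Finset (Fin t), (p : ℤ) ∣ ∑ σ, n σ * ∏ i ∈ S, χ σ i := fun S => by
      refine (hP.dvd_or_dvd (dvd_coef h hp hp2 hd
        (fun S => a S * ∑ σ, n σ * ∏ i ∈ S, χ σ i) ⟨c * (z2 - z1) - ∑ σ, n σ * j σ z, ?_⟩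
        S)).resolve_left (ha S)
      have h6 : ∀ σ, c * j σ y = ∑ S, a S * ((∏ i ∈ S, χ σ i : ℤ) * ∏ i ∈ S, r i) +
          p * j σ z := fun σ => by
        have := congrArg (j σ) hcy
        simpa [hj, Finset.prod_mul_distrib] using this
      have h7 : (c : 𝓞 K) * ∑ σ, n σ * j σ y = ∑ S, ((a S * ∑ σ, n σ * ∏ i ∈ S, χ σ i : ℤ) : 𝓞 K) *
          ∏ i ∈ S, r i + p * ∑ σ, n σ * j σ z := by
        simp only [Finset.mul_sum, mul_left_comm (c : 𝓞 K), h6, mul_add, Finset.sum_add_distrib,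
          Int.cast_sum, Finset.sum_mul, Int.cast_mul]
        rw [Finset.sum_comm]
        congr 1
        · exact Finset.sum_congr rfl fun _ _ => Finset.sum_congr rfl fun _ _ => by ring
        · exact Finset.sum_congr rfl fun _ _ => by ring
      linear_combination (c : 𝓞 K) * h4 - h7
    have h8 : ∑ S : Finset (Fin t), (∏ i ∈ S, χ τ i) * ∑ σ, n σ * ∏ i ∈ S, χ σ i = 2 ^ t * n τ := by
      simp only [Finset.mul_sum]
      rw [Finset.sum_comm, Finset.sum_eq_single τ]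
      · have : ∀ i, χ τ i * χ τ i = 1 := fun i => by
          simp only [χ]; rw [← pow_add, ← two_mul, pow_mul]; simp
        simp [mul_left_comm, ← Finset.prod_mul_distrib, this]
      · intro σ _ e
        obtain ⟨i, hi⟩ := Function.ne_iff.1
          (fun h => e (E.injective (Multiplicative.toAdd.injective h)))
        have h9 : ∀ a b : ZMod 2, a ≠ b → 1 + (-1 : ℤ) ^ b.val * (-1) ^ a.val = 0 := by decide
        simp only [mul_left_comm _ (n σ), ← Finset.prod_mul_distrib, ← Finset.mul_sum]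
        rw [← Finset.powerset_univ, ← Finset.prod_one_add,
          Finset.prod_eq_zero (Finset.mem_univ i) (h9 _ _ hi), mul_zero]
      · simp
    refine (hP.dvd_or_dvd (h8 ▸ Finset.dvd_sum fun S _ => (h5 S).mul_left _)).resolve_left ?_
    simpa using not_dvd_N hp hp2 hd ∅ t
  have all : ∀ (k : ℕ) (n : (K ≃ₐ[ℚ] K) → ℤ), IsOfFinOrder (∏ σ : K ≃ₐ[ℚ] K, (σ η) ^ (n σ)) →
      ∀ σ, (p : ℤ) ^ k ∣ n σ := by
    intro k
    induction k with
    | zero => simp
    | succ k ih =>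
      intro n hn σ
      choose m hm using step n hn
      rw [pow_succ', hm]
      refine mul_dvd_mul_left _ (ih m (IsOfFinOrder.of_pow (n := p) ?_ hp.ne_zero) σ)
      rw [← Finset.prod_pow]
      convert hn using 2 with τ
      rw [hm, mul_comm, zpow_mul, zpow_natCast]
  intro n hn
  funext σ
  refine Int.eq_zero_of_dvd_of_natAbs_lt_natAbs (all (n σ).natAbs n hn σ) ?_
  rw [Int.natAbs_pow, Int.natAbs_natCast]
  exact Nat.lt_pow_self hp.one_lt

end Pool.Agent.P.MP_657a03_nt.G5
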