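import Pool.Agent.P.MP_657a03_nt.G5.TRANK
import Pool.Agent.P.MP_657a03_nt.G5.TIND

/-! Step ETA. -/

set_option autoImplicit false

namespace Pool.Agent.P.MP_657a03_nt.G5

open NumberField Polynomial

theorem p_ETA (hUNIT : S_UNIT) (hLUC : S_LUC) (hREG : S_REG) (hIND : S_IND) :
    S_ETA := by
  intro t K _ _ d r p s g h ht hp hp2 hd hS hR
  have hP := Nat.prime_iff_prime_int.1 hp
  have hc : ¬ (p : ℤ) ∣ 2 ^ 1 * ∏ i, d i := not_dvd_N hp hp2 hd _ 1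
  have key : ∀ S : Finset (Fin t), ∃ (x y z : 𝓞 K) (a : ℤ), x ^ (p ^ 2 - 1) = 1 + p * y ∧
      ((2 ^ 1 * ∏ i, d i : ℤ) : 𝓞 K) * y = a * ∏ i ∈ S, r i + p * z ∧ ¬ (p : ℤ) ∣ a ∧
      (S = ∅ → x = 1 + p) ∧ (S ≠ ∅ → IsUnit x) := by
    intro S
    rcases S.eq_empty_or_nonempty with rfl | h1
    · obtain ⟨w, hw⟩ := prod_one_add_mul (p : 𝓞 K) (fun _ => 1) (Finset.range (p ^ 2 - 1))
      have hn : ((p ^ 2 - 1 : ℕ) : 𝓞 K) = p ^ 2 - 1 := by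
        rw [Nat.cast_sub (Nat.one_le_pow _ _ hp.pos)]; simp
      simp only [mul_one, Finset.prod_const, Finset.card_range, Finset.sum_const, nsmul_eq_mul,
        hn] at hw
      refine ⟨1 + p, -1 + p * (p + w), ((2 ^ 1 * ∏ i, d i : ℤ) : 𝓞 K) * (p + w),
        -(2 ^ 1 * ∏ i, d i), by rw [hw]; ring, by
          rw [Finset.prod_empty, Int.cast_neg]; ring, by rwa [dvd_neg], fun _ => rfl,
        fun h0 => absurd rfl h0⟩
    · obtain ⟨a1, a2, a3⟩ := hS S h1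
      obtain ⟨e, e', y, y', a, b1, b2, b3, b4, b5⟩ := unit_quot hUNIT hLUC hp hp2 (h.sq_prod S)
        (by simpa using not_dvd_N hp hp2 hd S 0) a1 a2 a3
      have hy : y + y' = -(p * y * y') := by
        have h0 : (p : 𝓞 K) ≠ 0 := Nat.cast_ne_zero.2 hp.ne_zero
        apply mul_left_cancel₀ h0
        have : (1 + p * y) * (1 + p * y') = 1 := by rw [← b2, ← b3, ← mul_pow, b1, one_pow]
        linear_combination this
      refine ⟨e, y, -(((∏ i, d i : ℤ) : 𝓞 K) * y * y'), a * ∏ i ∈ Sᶜ, d i, b2, ?_, fun h0 => ?_,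
        fun h0 => absurd h0 h1.ne_empty, fun _ => IsUnit.of_mul_eq_one _ b1⟩
      · rw [← Finset.prod_mul_prod_compl S d]
        simp only [Int.cast_mul, Int.cast_pow, Int.cast_ofNat]
        linear_combination ((∏ i ∈ Sᶜ, d i : ℤ) : 𝓞 K) * b4 +
          ((∏ i ∈ S, d i : ℤ) : 𝓞 K) * ((∏ i ∈ Sᶜ, d i : ℤ) : 𝓞 K) * hy
      · exact (hP.dvd_or_dvd h0).elim b5 (by simpa using not_dvd_N hp hp2 hd Sᶜ 0)
  choose x y z a h1 h2 h3 h4 h5 using key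
  obtain ⟨u, hu⟩ : IsUnit (∏ S ∈ Finset.univ.erase ∅, x S) :=
    IsUnit.prod_iff.2 fun S hS => h5 S (Finset.ne_of_mem_erase hS)
  obtain ⟨w, hw⟩ := prod_one_add_mul (p : 𝓞 K) y Finset.univ
  have hη : ∏ S, x S = (1 + p) * u := by
    rw [← Finset.mul_prod_erase _ _ (Finset.mem_univ ∅), h4 _ rfl, hu]
  have e : (1 + p : K) * u = (∏ S, x S : 𝓞 K) := by rw [hη]; simp
  have hz : ((2 ^ 1 * ∏ i, d i : ℤ) : 𝓞 K) * ((∏ S, x S) ^ (p ^ 2 - 1) - 1) =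
      p * ∑ S, a S * ∏ i ∈ S, r i +
        p ^ 2 * (∑ S, z S + ((2 ^ 1 * ∏ i, d i : ℤ) : 𝓞 K) * w) := by
    rw [← Finset.prod_pow, Finset.prod_congr rfl fun S _ => h1 S, hw]
    have : ((2 ^ 1 * ∏ i, d i : ℤ) : 𝓞 K) * ∑ S, y S =
        ∑ S, a S * ∏ i ∈ S, r i + p * ∑ S, z S := by
      rw [Finset.mul_sum, Finset.mul_sum, ← Finset.sum_add_distrib]
      exact Finset.sum_congr rfl fun S _ => h2 S
    linear_combination (p : 𝓞 K) * this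
  refine ⟨u, ?_⟩
  rw [e]
  refine ⟨(hIND t K d r p _ _ _ a h hR hp hp2 hd hc h3 hz).2, ?_⟩
  intro _
  exact hREG t K d r p _ _ _ a h ht hp hp2 hd hc h3 hz

end Pool.Agent.P.MP_657a03_nt.G5
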