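import Pool.Agent.P.MP_657a03_nt.G5.If

/-! Step HB. -/

set_option autoImplicit false
set_option linter.unusedSectionVars false

namespace Pool.Agent.P.MP_657a03_nt.G5

open NumberField Polynomial

namespace HBx

open scoped nonZeroDivisors

variable {K : Type} [Field K] [NumberField K]

/-- counting the ideals of bounded norm -/
theorem count (B : ℕ)
    (h : ∀ c : ClassGroup (𝓞 K), ∃ I : (Ideal (𝓞 K))⁰, ClassGroup.mk0 I = c ∧
      Ideal.absNorm (I : Ideal (𝓞 K)) ≤ B) :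
    classNumber K ≤ B ^ (Module.finrank ℚ K + 1) := by
  have n0 : ∀ k : ℕ, ((k + 1 : ℕ) : 𝓞 K) ≠ 0 := fun k => Nat.cast_ne_zero.2 k.succ_ne_zero
  have cd : ∀ k : ℕ, Nat.card (𝓞 K ⧸ Ideal.span {((k + 1 : ℕ) : 𝓞 K)}) =
      (k + 1) ^ Module.finrank ℚ K := fun k => by
    rw [← RingOfIntegers.rank, ← Ideal.absNorm_span_natCast, Ideal.absNorm_apply,
      Submodule.cardQuot_apply]
  have fin : ∀ k : Fin B, Finite (𝓞 K ⧸ Ideal.span {((k.1 + 1 : ℕ) : 𝓞 K)}) := fun k =>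
    Nat.finite_of_card_ne_zero (by rw [cd]; positivity)
  let G : (Σ k : Fin B, 𝓞 K ⧸ Ideal.span {((k.1 + 1 : ℕ) : 𝓞 K)}) → ClassGroup (𝓞 K) := fun x =>
    ClassGroup.mk0 ⟨Ideal.span {((x.1.1 + 1 : ℕ) : 𝓞 K), x.2.out},
      mem_nonZeroDivisors_of_ne_zero fun e => n0 x.1.1
        ((Ideal.span_eq_bot.1 e) _ (Set.mem_insert _ _))⟩
  have hG : Function.Surjective G := fun c => by
    obtain ⟨I, rfl, hI⟩ := h c
    obtain ⟨k, hk⟩ := Nat.exists_eq_succ_of_ne_zero (Ideal.absNorm_ne_zero_of_nonZeroDivisors I)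
    have hm := Ideal.absNorm_mem (I : Ideal (𝓞 K))
    rw [hk] at hm hI
    obtain ⟨y, hy⟩ := IsDedekindDomain.exists_eq_span_pair hm (n0 k)
    refine ⟨⟨⟨k, hI⟩, Ideal.Quotient.mk _ y⟩, congrArg ClassGroup.mk0 (Subtype.ext ?_)⟩
    obtain ⟨z, hz⟩ := Ideal.mem_span_singleton'.1 (Ideal.Quotient.eq.1
      (Ideal.Quotient.mk_out (Ideal.Quotient.mk (Ideal.span {((k + 1 : ℕ) : 𝓞 K)}) y)))
    change Ideal.span {((k + 1 : ℕ) : 𝓞 K), _} = _
    rw [hy, eq_add_of_sub_eq hz.symm, add_comm (z * _), Ideal.span_pair_add_mul_left]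
  rw [classNumber, ← Nat.card_eq_fintype_card]
  refine (Nat.card_le_card_of_surjective G hG).trans ?_
  rw [Nat.card_sigma, pow_succ']
  refine (Finset.sum_le_card_nsmul _ _ (B ^ Module.finrank ℚ K) fun k _ => ?_).trans_eq (by simp)
  rw [cd]
  exact Nat.pow_le_pow_left k.2 _

theorem disc_le {ι : Type} [Fintype ι] [DecidableEq ι] (v : ι → 𝓞 K) (hv : LinearIndependent ℤ v)
    (hc : Fintype.card ι = Module.finrank ℚ K) : |discr K| ≤ |Algebra.discr ℤ v| := by
  let b := (RingOfIntegers.basis K).reindex (Fintype.equivOfCardEq (β := ι) (by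
    rw [hc, ← RingOfIntegers.rank, Module.finrank_eq_card_chooseBasisIndex]))
  have h0 : (b.toMatrix v).det ≠ 0 := fun e => by
    obtain ⟨c, c0, hc⟩ := Matrix.exists_mulVec_eq_zero_iff.2 e
    refine c0 (funext (Fintype.linearIndependent_iff.1 hv c (b.ext_elem fun i => ?_)))
    rw [map_sum, Finsupp.finsetSum_apply]
    simp only [map_smul, Finsupp.smul_apply, smul_eq_mul]
    simpa [Matrix.mulVec, dotProduct, Module.Basis.toMatrix_apply, mul_comm] using congrFun hc i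
  rw [← b.toMatrix_map_vecMul v, Algebra.discr_of_matrix_vecMul, discr_eq_discr, abs_mul, abs_pow]
  exact le_mul_of_one_le_left (abs_nonneg _) (one_le_pow₀ (Int.one_le_abs h0))

theorem tr_le (x : 𝓞 K) (A : ℕ) (h : ∀ φ : K →ₐ[ℚ] ℂ, ‖φ x‖ ≤ A) :
    |Algebra.trace ℤ _ x| ≤ (Module.finrank ℚ K * A : ℕ) := by
  have e := trace_eq_sum_embeddings ℂ (K := ℚ) (x := (x : K))
  rw [← Algebra.coe_trace_int, map_intCast] at e
  have := (norm_sum_le _ _).trans (Finset.sum_le_card_nsmul Finset.univ _ _ fun φ _ => h φ)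
  rw [← e, Complex.norm_intCast, Finset.card_univ, AlgHom.card, nsmul_eq_mul] at this
  exact_mod_cast this

end HBx

open HBx in
theorem p_HB :
    S_HB := by
  intro t
  obtain ⟨n, hn⟩ : ∃ n, n = 2 ^ t := ⟨_, rfl⟩
  refine ⟨(n + (n.factorial + (n + 2 * t) * n)) * (n + 1), fun K _ _ d r H h hH hd => ?_⟩
  have hr : Module.finrank ℚ K = n := hn ▸ h.deg
  have hc : Fintype.card (Finset (Fin t)) = n := by simp [hn]
  have H1 : (1 : ℝ) ≤ H := by exact_mod_cast (by omega : 1 ≤ H)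
  have up : ∀ m : ℕ, m ≤ H ^ m := fun m => (Nat.lt_pow_self hH).le
  have e1 : ∀ (φ : K →ₐ[ℚ] ℂ) i, ‖φ (r i)‖ ≤ H := fun φ i => by
    refine le_of_pow_le_pow_left₀ two_ne_zero (by positivity) ?_
    have e : φ (r i) ^ 2 = d i := by
      rw [← map_pow, ← map_intCast φ]
      exact congrArg φ (by
        rw [RingOfIntegers.coe_eq_algebraMap, ← map_pow, h.sq, map_intCast])
    rw [← norm_pow, e, Complex.norm_intCast, ← Int.cast_abs, Int.abs_eq_natAbs, Int.cast_natCast]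
    exact (Nat.cast_le.2 (hd i)).trans (le_self_pow₀ H1 two_ne_zero)
  have e2 : ∀ (φ : K →ₐ[ℚ] ℂ) (S : Finset (Fin t)), ‖φ (∏ i ∈ S, r i : 𝓞 K)‖ ≤ (H : ℝ) ^ t :=
    fun φ S => by
      rw [RingOfIntegers.coe_eq_algebraMap, map_prod, map_prod, norm_prod]
      refine (Finset.prod_le_prod (fun _ _ => norm_nonneg _) fun i _ => e1 φ i).trans ?_
      rw [Finset.prod_const]
      exact pow_le_pow_right₀ H1 (by simpa using S.card_le_univ)
  have e3 : |discr K| ≤ (H ^ (n.factorial + (n + 2 * t) * n) : ℕ) := by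
    refine (disc_le _ h.ind (hc.trans hr.symm)).trans ((Matrix.det_le (abv := AbsoluteValue.abs)
      (x := ((n * H ^ (2 * t) : ℕ) : ℤ)) fun S T => ?_).trans ?_)
    · rw [← hr]
      refine tr_le ((∏ i ∈ S, r i) * ∏ i ∈ T, r i) _ fun φ => ?_
      rw [RingOfIntegers.coe_eq_algebraMap, map_mul, map_mul, norm_mul, two_mul, pow_add,
        Nat.cast_mul, Nat.cast_pow]
      exact mul_le_mul (e2 φ S) (e2 φ T) (norm_nonneg _) (by positivity)
    · rw [hc, nsmul_eq_mul, ← Nat.cast_pow, ← Nat.cast_mul, Nat.cast_le, pow_add, pow_mul H (n + _),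
        pow_add]
      gcongr <;> exact up _
  rw [pow_mul, ← hr]
  refine count _ fun c => ?_
  obtain ⟨I, hI, hN⟩ := exists_ideal_in_class_of_norm_le c
  refine ⟨I, hI, Nat.cast_le (α := ℝ).1 (hN.trans ?_)⟩
  have a1 : (4 / Real.pi) ^ InfinitePlace.nrComplexPlaces K ≤ (H : ℝ) ^ n := by
    have := InfinitePlace.card_add_two_mul_card_eq_rank K
    refine (pow_le_pow_left₀ (by positivity) ?_ _).trans (pow_le_pow_right₀ H1 (by omega))
    rw [div_le_iff₀ Real.pi_pos]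
    have : (2 : ℝ) ≤ H := by exact_mod_cast hH
    nlinarith [Real.two_le_pi]
  have a2 : ((Module.finrank ℚ K).factorial : ℝ) / (Module.finrank ℚ K : ℝ) ^ Module.finrank ℚ K ≤
      1 := div_le_one_of_le₀ (by exact_mod_cast Nat.factorial_le_pow _) (by positivity)
  have a3 : √|(discr K : ℝ)| ≤ (H : ℝ) ^ (n.factorial + (n + 2 * t) * n) := by
    refine Real.sqrt_le_iff.2 ⟨by positivity, le_trans (by exact_mod_cast e3)
      (le_self_pow₀ (one_le_pow₀ H1) two_ne_zero)⟩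
  rw [hr, Nat.cast_pow, pow_add]
  rw [hr] at a2
  exact mul_le_mul a1 ((mul_le_of_le_one_left (by positivity) a2).trans a3) (by positivity)
    (by positivity)

end Pool.Agent.P.MP_657a03_nt.G5
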