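import Pool.Agent.P.MP_657a03_nt.G5.If

/-! Step MAIN. -/

set_option autoImplicit false

namespace Pool.Agent.P.MP_657a03_nt.G5

open NumberField Polynomial

theorem poly_bound (P : ℤ[X]) : ∃ c : ℕ, ∀ m : ℕ, (P.eval (m : ℤ)).natAbs ≤ (m + 2) ^ c := by
  induction P using Polynomial.induction_on' with
  | add P Q hP hQ =>
    obtain ⟨a, ha⟩ := hP
    obtain ⟨b, hb⟩ := hQ
    refine ⟨a + b + 1, fun m => ?_⟩
    have h1 : (m + 2) ^ a ≤ (m + 2) ^ (a + b) := Nat.pow_le_pow_right (by omega) (by omega)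
    have h2 : (m + 2) ^ b ≤ (m + 2) ^ (a + b) := Nat.pow_le_pow_right (by omega) (by omega)
    have h3 := Int.natAbs_add_le (P.eval (m : ℤ)) (Q.eval (m : ℤ))
    have := ha m
    have := hb m
    rw [eval_add, pow_succ]
    nlinarith [Nat.zero_le (m * (m + 2) ^ (a + b))]
  | monomial n a =>
    refine ⟨a.natAbs + n, fun m => ?_⟩
    rw [eval_monomial, Int.natAbs_mul, Int.natAbs_pow, Int.natAbs_natCast, pow_add]
    exact Nat.mul_le_mul (Nat.lt_pow_self (by omega)).le (Nat.pow_le_pow_left (by omega) _)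

theorem not_sq {s g D : ℤ} (hs : 2 < s) (hD : 0 < D) (h : (s ^ 2 - 4) * D = g ^ 2) :
    ¬ IsSquare D := by
  rintro ⟨r, rfl⟩
  have hr : r ≠ 0 := by rintro rfl; simp at hD
  obtain ⟨k, rfl⟩ : r ∣ g := (Int.pow_dvd_pow_iff two_ne_zero).1 ⟨s ^ 2 - 4, by linear_combination -h⟩
  have h1 : s ^ 2 - 4 = |k| ^ 2 := by
    rw [sq_abs]
    apply mul_right_cancel₀ (pow_ne_zero 2 hr)
    linear_combination h
  have h0 := abs_nonneg k
  rcases le_or_gt s |k| with h2 | h2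
  · nlinarith
  · have : |k| ≤ s - 1 := by omega
    nlinarith

theorem p_MAIN (hFIELD : S_FIELD) (hSIG : S_SIG) (hHB : S_HB) (hRANK : S_RANK) (hETA : S_ETA)
    (hDATA : S_DATA) (hCNT : S_CNT) (hAVG : S_AVG) : S_MAIN := by
  obtain ⟨d, s, g, hd0, hd, hs⟩ := hDATA
  have hd0' : ∀ m : ℤ, (d 0).eval m = -1 := fun m => by simp [hd0]
  have hid : ∀ (m : ℤ) S, S.Nonempty → 0 ∉ S →
      ((s S).eval m ^ 2 - 4) * ∏ i ∈ S, (d i).eval m = (g S).eval m ^ 2 := fun m S h1 h0 => by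
    simpa [eval_prod] using congrArg (eval m) (hs S h1 h0).1
  have hpos : ∀ (m : ℕ) (S : Finset (Fin 5)), 0 ∉ S → 0 < ∏ i ∈ S, (d i).eval (m : ℤ) :=
    fun m S h0 => Finset.prod_pos fun i hi => hd i (fun h => h0 (h ▸ hi)) m
  have hns : ∀ (m : ℕ) (S : Finset (Fin 5)), S.Nonempty →
      ¬ IsSquare (∏ i ∈ S, (d i).eval (m : ℤ)) := by
    intro m S h1
    by_cases h0 : 0 ∈ S
    · rw [← Finset.mul_prod_erase _ _ h0, hd0']
      have := hpos m (S.erase 0) (Finset.notMem_erase _ _)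
      exact fun h => absurd h.nonneg (by linarith)
    · exact not_sq ((hs S h1 h0).2.2 m) (hpos m S h0) (hid m S h1 h0)
  have hK : ∀ m : ℕ, ∃ (K : Type) (_ : Field K) (_ : NumberField K) (r : Fin 5 → 𝓞 K),
      MQ K (fun i => (d i).eval (m : ℤ)) r := by
    intro m
    choose ρ hρ using fun i : Fin 5 =>
      IsAlgClosed.exists_pow_nat_eq (((d i).eval (m : ℤ) : ℤ) : ℂ) two_pos
    obtain ⟨K, _, _, -, r, h⟩ := hFIELD 5 _ ℂ ρ hρ (hns m)
    exact ⟨K, _, _, r, h⟩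
  choose K iF iN r hMQ using hK
  obtain ⟨C, hC⟩ := hHB 5
  choose c hc using fun i => poly_bound (d i)
  have hG : ∏ i, d i ≠ 0 := Finset.prod_ne_zero_iff.2 fun i _ h =>
    (hMQ 0).ne i (by simp [h])
  obtain ⟨P₀, hP₀⟩ := hCNT {S : Finset (Fin 5) // S.Nonempty ∧ 0 ∉ S} (fun S => s S.1) _ hG
    fun S => (hs S.1 S.2.1 S.2.2).2.1
  obtain ⟨b, hb⟩ := hAVG {p : ℕ | p.Prime ∧
    ¬ ∃ (K : Type) (_ : Field K) (_ : NumberField K), IsGalois ℚ K ∧ IsTotallyComplex K ∧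
      Nonempty ((K ≃ₐ[ℚ] K) ≃* Multiplicative (Fin 5 → ZMod 2)) ∧ ¬ p ∣ classNumber K ∧
      PRat K p ∧ ∃ (F : Type) (_ : Field F) (_ : NumberField F) (_ : F →+* K) (u : (𝓞 F)ˣ),
        IsGalois ℚ F ∧ IsTotallyReal F ∧ Module.finrank ℚ F = 16 ∧
        Indep F ((1 + p) * u) ∧ RegUnit F ((1 + p) * u) p}
    (fun m => classNumber (K m)) ((∑ i, c i + 1) * C) (P₀ + 2) (fun p hp => hp.1)
    (fun m => classNumber_ne_zero _) (fun m => by
      rw [pow_mul]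
      refine hC (K m) _ (r m) _ (hMQ m) ?_ fun i => (hc i m).trans
        (Nat.pow_le_pow_right (by omega) ((Finset.single_le_sum (fun _ _ => Nat.zero_le _)
          (Finset.mem_univ i)).trans (Nat.le_succ _)))
      exact le_trans (by omega) (Nat.le_self_pow (Nat.succ_ne_zero _) _)) (by
    rintro p ⟨hp, hB⟩ hpP N hN
    refine (hP₀ p (by omega) hp N hN).trans (Nat.mul_le_mul_left _ (Set.ncard_le_ncard ?_
      ((Set.finite_lt_nat N).subset fun m hm => hm.1)))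
    rintro m ⟨hm, h1, h2⟩
    refine ⟨hm, by_contra fun hh => hB ?_⟩
    have hp2 : p ≠ 2 := by omega
    have hdp : ∀ i, ¬ (p : ℤ) ∣ (d i).eval (m : ℤ) := fun i h => h1 (by
      rw [eval_prod]; exact h.trans (Finset.dvd_prod_of_mem _ (Finset.mem_univ i)))
    have hS := fun (S : Finset (Fin 5)) (a1 : S.Nonempty) (a0 : 0 ∉ S) =>
      And.intro (hid m S a1 a0) (h2 ⟨S, a1, a0⟩)
    have hm1 : ∀ S : Finset (Fin 4), S.Nonempty → (S.map (Fin.succEmb 4)).Nonempty :=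
      fun S h => h.map
    have hm0 : ∀ S : Finset (Fin 4), 0 ∉ S.map (Fin.succEmb 4) := fun S => by
      simp [Fin.succ_ne_zero]
    obtain ⟨F, jF, jN, f, r', hF⟩ := hFIELD 4 (fun i => (d i.succ).eval (m : ℤ)) (K m)
      (fun i => r m i.succ) (fun i => by
        simpa using congrArg (algebraMap (𝓞 (K m)) (K m)) ((hMQ m).sq i.succ))
      fun S h => by simpa [Finset.prod_map] using hns m _ (hm1 S h)
    have hFR := (hSIG 4 _ _ _ hF).1 fun i => hd _ (Fin.succ_ne_zero i) m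
    obtain ⟨u, hu1, hu⟩ := hETA 4 F _ r' p (fun S => (s (S.map (Fin.succEmb 4))).eval (m : ℤ))
      (fun S => (g (S.map (Fin.succEmb 4))).eval (m : ℤ)) hF (by omega) hp hp2
      (fun i => hdp _) (fun S h => by
        simpa [Finset.prod_map] using hS _ (hm1 S h) (hm0 S)) hFR
    have hneg : (d 0).eval (m : ℤ) < 0 := by rw [hd0']; omega
    exact ⟨K m, iF m, iN m, (hMQ m).gal, ((hSIG 5 _ _ _ (hMQ m)).2 ⟨0, hneg⟩).1,
      ⟨(hMQ m).grp.choose⟩, hh, hRANK 4 (K m) _ (r m) p _ _ (hMQ m) hneg hp hp2 hdp hh hS,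
      F, jF, jN, f, u, hF.gal, hFR, hF.deg, hu1, @hu⟩)
  refine ⟨b, fun x hx => le_of_eq_of_le ?_ (hb x hx)⟩
  congr 2
  ext p
  simp only [Set.mem_ofPred_eq]
  tauto

end Pool.Agent.P.MP_657a03_nt.G5
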