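import Pool.Agent.P.MP_657a03_nt.G5.TAVG
import Pool.Agent.P.MP_657a03_nt.G5.TCNT
import Pool.Agent.P.MP_657a03_nt.G5.TDATA
import Pool.Agent.P.MP_657a03_nt.G5.TETA
import Pool.Agent.P.MP_657a03_nt.G5.TFIELD
import Pool.Agent.P.MP_657a03_nt.G5.THB
import Pool.Agent.P.MP_657a03_nt.G5.TLUC
import Pool.Agent.P.MP_657a03_nt.G5.TMAIN
import Pool.Agent.P.MP_657a03_nt.G5.TREG
import Pool.Agent.P.MP_657a03_nt.G5.TSIG

/-! Assembly. -/

set_option autoImplicit false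

namespace Pool.Agent.P.MP_657a03_nt.G5

theorem t_MAIN : S_MAIN :=
  p_MAIN p_FIELD p_SIG p_HB (p_RANK p_CRIT p_UNIT p_LUC p_FROB p_SIG)
    (p_ETA p_UNIT p_LUC p_REG p_IND) p_DATA (p_CNT p_LUC) p_AVG

end Pool.Agent.P.MP_657a03_nt.G5
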