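import Mathlib

/-! Definitions: ray class ranks, independence of conjugates, the normalised regulator. -/

set_option autoImplicit false

namespace Pool.Agent.P.MP_657a03_nt.G5

open NumberField

/-- ideals prime to `p` -/
def Cop {K : Type} [Field K] (p : ℕ) (I : Ideal (𝓞 K)) : Prop :=
  IsCoprime I (Ideal.span {(p : 𝓞 K)})

/-- homomorphisms from the ray class group of modulus `p ^ m` to the integers modulo `p` -/
def RayCh {K : Type} [Field K] (p m : ℕ) (φ : Ideal (𝓞 K) → ZMod p) : Prop :=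
  (∀ I J, Cop p I → Cop p J → φ (I * J) = φ I + φ J) ∧
    ∀ α : 𝓞 K, (p : 𝓞 K) ^ m ∣ α - 1 → φ (Ideal.span {α}) = 0

/-- every ray class group of modulus a power of `p` has `p`-rank at most `r₂ + 1` -/
def PRat (K : Type) [Field K] [NumberField K] (p : ℕ) : Prop :=
  ∀ (m : ℕ) (φ : Fin (InfinitePlace.nrComplexPlaces K + 2) → Ideal (𝓞 K) → ZMod p),
    (∀ i, RayCh p m (φ i)) → ∃ c : Fin (InfinitePlace.nrComplexPlaces K + 2) → ZMod p,
      c ≠ 0 ∧ ∀ I, Cop p I → ∑ i, c i * φ i I = 0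

open scoped Classical in
/-- the normalised regulator of `η` is a `p`-adic unit -/
def RegUnit (K : Type) [Field K] [NumberField K] (η : K) (p : ℕ) : Prop :=
  ∀ [Fact p.Prime] (L : Type) [NormedField L] [CompleteSpace L] [IsUltrametricDist L]
    [NormedAlgebra ℚ_[p] L] (ι : K →+* L),
    ‖((p : L)⁻¹) ^ (Module.finrank ℚ K) *
      Matrix.det (Matrix.of (fun (σ τ : K ≃ₐ[ℚ] K) =>
        (((p ^ Module.finrank ℚ K - 1 : ℕ) : L))⁻¹ *
          ∑' k : ℕ, (-1 : L) ^ k *
            (ι ((σ * τ) η) ^ (p ^ Module.finrank ℚ K - 1) - 1) ^ (k + 1) /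
              ((k : L) + 1)))‖ = 1

/-- the conjugates are multiplicatively independent modulo roots of unity -/
def Indep (K : Type) [Field K] [NumberField K] (η : K) : Prop :=
  ∀ a : (K ≃ₐ[ℚ] K) → ℤ, IsOfFinOrder (∏ σ : K ≃ₐ[ℚ] K, (σ η) ^ (a σ)) → a = 0

end Pool.Agent.P.MP_657a03_nt.G5
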