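import Pool.Agent.P.MP_657a03_nt.G5.Defs

/-! Statements: multiquadratic fields with polynomial units. -/

set_option autoImplicit false

namespace Pool.Agent.P.MP_657a03_nt.G5

open NumberField Polynomial

/-- `K` is generated by independent square roots `r i` of the integers `d i` -/
structure MQ {t : ℕ} (K : Type) [Field K] [NumberField K] (d : Fin t → ℤ) (r : Fin t → 𝓞 K) :
    Prop where
  sq : ∀ i, r i ^ 2 = d i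
  ne : ∀ i, d i ≠ 0
  gal : IsGalois ℚ K
  grp : ∃ e : (K ≃ₐ[ℚ] K) ≃* Multiplicative (Fin t → ZMod 2),
    ∀ σ i, σ (r i) = (-1) ^ ((e σ).toAdd i).val * (r i : K)
  deg : Module.finrank ℚ K = 2 ^ t
  ind : LinearIndependent ℤ fun S : Finset (Fin t) => ∏ i ∈ S, r i
  gen : ∀ x : 𝓞 K, ∃ n : Finset (Fin t) → ℤ,
    ((2 ^ t * ∏ i, d i : ℤ) : 𝓞 K) * x = ∑ S, n S * ∏ i ∈ S, r i

/-- the Lucas polynomials -/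
noncomputable def U : ℕ → ℤ[X]
  | 0 => 0
  | 1 => 1
  | n + 2 => X * U (n + 1) - U n

/-- existence of the field -/
def S_FIELD : Prop :=
  ∀ (t : ℕ) (d : Fin t → ℤ) (Ω : Type) [Field Ω] [CharZero Ω] (ρ : Fin t → Ω),
    (∀ i, ρ i ^ 2 = d i) → (∀ S : Finset (Fin t), S.Nonempty → ¬ IsSquare (∏ i ∈ S, d i)) →
    ∃ (K : Type) (_ : Field K) (_ : NumberField K) (_ : K →+* Ω) (r : Fin t → 𝓞 K), MQ K d r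

/-- signatures -/
def S_SIG : Prop :=
  ∀ (t : ℕ) (K : Type) [Field K] [NumberField K] (d : Fin t → ℤ) (r : Fin t → 𝓞 K), MQ K d r →
    ((∀ i, 0 < d i) → IsTotallyReal K) ∧ ((∃ i, d i < 0) → IsTotallyComplex K ∧
      2 * InfinitePlace.nrComplexPlaces K = 2 ^ t)

/-- the class number is polynomially bounded -/
def S_HB : Prop :=
  ∀ t : ℕ, ∃ C : ℕ, ∀ (K : Type) [Field K] [NumberField K] (d : Fin t → ℤ) (r : Fin t → 𝓞 K)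
    (H : ℕ), MQ K d r → 2 ≤ H → (∀ i, (d i).natAbs ≤ H) → classNumber K ≤ H ^ C

/-- the square of Frobenius is trivial -/
def S_FROB : Prop :=
  ∀ (t : ℕ) (K : Type) [Field K] [NumberField K] (d : Fin t → ℤ) (r : Fin t → 𝓞 K) (p : ℕ),
    MQ K d r → p.Prime → p ≠ 2 → (∀ i, ¬ (p : ℤ) ∣ d i) → ∀ x : 𝓞 K, (p : 𝓞 K) ∣ x ^ p ^ 2 - x

/-- ray characters are read on the principal units -/
def S_CRIT : Prop :=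
  ∀ (K : Type) [Field K] [NumberField K] (p m : ℕ) (φ : Ideal (𝓞 K) → ZMod p), p.Prime → p ≠ 2 →
    RayCh p m φ → (∀ y z : 𝓞 K, φ (Ideal.span {1 + p * (y + z)}) =
      φ (Ideal.span {1 + p * y}) + φ (Ideal.span {1 + p * z})) ∧
    (¬ p ∣ classNumber K → (∀ x : 𝓞 K, (p : 𝓞 K) ∣ x ^ p ^ 2 - x) →
      (∀ y : 𝓞 K, φ (Ideal.span {1 + p * y}) = 0) → ∀ I, Cop p I → φ I = 0)

/-- the unit attached to a trace -/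
def S_UNIT : Prop :=
  ∀ (K : Type) [Field K] [NumberField K] (r : 𝓞 K) (D s g : ℤ), r ^ 2 = D → D ≠ 0 →
    (s ^ 2 - 4) * D = g ^ 2 → ∃ e e' : 𝓞 K, e * e' = 1 ∧ e + e' = s ∧ D * (e - e') = g * r ∧
      ∀ n : ℕ, e ^ (n + 1) = ((U (n + 1)).eval s : ℤ) * e - ((U n).eval s : ℤ) ∧
        e' ^ (n + 1) = ((U (n + 1)).eval s : ℤ) * e' - ((U n).eval s : ℤ)

/-- the Lucas polynomials modulo `p` -/
def S_LUC : Prop :=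
  ∀ (p : ℕ) (s : ℤ), p.Prime → p ≠ 2 → ¬ (p : ℤ) ∣ s ^ 2 - 4 →
    (p : ℤ) ∣ (U (p ^ 2 - 1)).eval s ∧
    (p : ℤ) ∣ (U (p ^ 2 - 2)).eval s + 1 ∧ ¬ (p : ℤ) ∣ (derivative (U (p ^ 2 - 1))).eval s

/-- the rank of the ray class groups -/
def S_RANK : Prop :=
  ∀ (k : ℕ) (K : Type) [Field K] [NumberField K] (d : Fin (k + 1) → ℤ) (r : Fin (k + 1) → 𝓞 K)
    (p : ℕ) (s g : Finset (Fin (k + 1)) → ℤ), MQ K d r → d 0 < 0 → p.Prime → p ≠ 2 →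
    (∀ i, ¬ (p : ℤ) ∣ d i) → ¬ p ∣ classNumber K →
    (∀ S, S.Nonempty → 0 ∉ S → (s S ^ 2 - 4) * ∏ i ∈ S, d i = g S ^ 2 ∧
      ¬ (p : ℤ) ∣ s S ^ 2 - 4 ∧ ¬ (p : ℤ) ^ 2 ∣ (U (p ^ 2 - 1)).eval (s S)) →
    PRat K p

/-- the regulator from the Fermat quotient -/
def S_REG : Prop :=
  ∀ (t : ℕ) (K : Type) [Field K] [NumberField K] (d : Fin t → ℤ) (r : Fin t → 𝓞 K) (p : ℕ)
    (η z : 𝓞 K) (c : ℤ) (a : Finset (Fin t) → ℤ), MQ K d r → t ≠ 0 → p.Prime → p ≠ 2 →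
    (∀ i, ¬ (p : ℤ) ∣ d i) → ¬ (p : ℤ) ∣ c → (∀ S, ¬ (p : ℤ) ∣ a S) →
    c * (η ^ (p ^ 2 - 1) - 1) = p * ∑ S, a S * ∏ i ∈ S, r i + p ^ 2 * z → RegUnit K η p

/-- independence of the conjugates from the Fermat quotient -/
def S_IND : Prop :=
  ∀ (t : ℕ) (K : Type) [Field K] [NumberField K] (d : Fin t → ℤ) (r : Fin t → 𝓞 K) (p : ℕ)
    (η z : 𝓞 K) (c : ℤ) (a : Finset (Fin t) → ℤ), MQ K d r → IsTotallyReal K → p.Prime → p ≠ 2 →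
    (∀ i, ¬ (p : ℤ) ∣ d i) → ¬ (p : ℤ) ∣ c → (∀ S, ¬ (p : ℤ) ∣ a S) →
    c * (η ^ (p ^ 2 - 1) - 1) = p * ∑ S, a S * ∏ i ∈ S, r i + p ^ 2 * z →
    (η : K) ≠ 0 ∧ Indep K η

/-- the product of the units -/
def S_ETA : Prop :=
  ∀ (t : ℕ) (K : Type) [Field K] [NumberField K] (d : Fin t → ℤ) (r : Fin t → 𝓞 K)
    (p : ℕ) (s g : Finset (Fin t) → ℤ), MQ K d r → t ≠ 0 → p.Prime → p ≠ 2 →
    (∀ i, ¬ (p : ℤ) ∣ d i) →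
    (∀ S, S.Nonempty → (s S ^ 2 - 4) * ∏ i ∈ S, d i = g S ^ 2 ∧
      ¬ (p : ℤ) ∣ s S ^ 2 - 4 ∧ ¬ (p : ℤ) ^ 2 ∣ (U (p ^ 2 - 1)).eval (s S)) →
    IsTotallyReal K → ∃ u : (𝓞 K)ˣ, Indep K ((1 + p) * u) ∧ RegUnit K ((1 + p) * u) p

/-- the fifteen identities -/
def S_DATA : Prop :=
  ∃ (d : Fin 5 → ℤ[X]) (s g : Finset (Fin 5) → ℤ[X]), d 0 = -1 ∧
    (∀ i, i ≠ 0 → ∀ m : ℕ, 0 < (d i).eval (m : ℤ)) ∧
    ∀ S, S.Nonempty → 0 ∉ S → (s S ^ 2 - 4) * ∏ i ∈ S, d i = g S ^ 2 ∧ derivative (s S) ≠ 0 ∧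
      ∀ m : ℕ, 2 < (s S).eval (m : ℤ)

/-- most parameters have unit regulators -/
def S_CNT : Prop :=
  ∀ (ι : Type) [Fintype ι] (s : ι → ℤ[X]) (G : ℤ[X]), G ≠ 0 → (∀ i, derivative (s i) ≠ 0) →
    ∃ P₀ : ℕ, ∀ p : ℕ, P₀ < p → p.Prime → ∀ N : ℕ, p ^ 2 ≤ N →
      N ≤ 2 * Set.ncard {m : ℕ | m < N ∧ ¬ (p : ℤ) ∣ G.eval (m : ℤ) ∧ ∀ i,
        ¬ (p : ℤ) ∣ (s i).eval (m : ℤ) ^ 2 - 4 ∧
        ¬ (p : ℤ) ^ 2 ∣ (U (p ^ 2 - 1)).eval ((s i).eval (m : ℤ))}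

/-- the double count and the iteration -/
def S_AVG : Prop :=
  ∀ (B : Set ℕ) (h : ℕ → ℕ) (C P₀ : ℕ), (∀ p ∈ B, p.Prime) → (∀ m, h m ≠ 0) →
    (∀ m, h m ≤ (m + 2) ^ C) →
    (∀ p ∈ B, P₀ < p → ∀ N : ℕ, p ^ 2 ≤ N → N ≤ 2 * Set.ncard {m : ℕ | m < N ∧ p ∣ h m}) →
    ∃ c : ℝ, ∀ x : ℝ, 3 ≤ x → (Set.ncard {p ∈ B | (p : ℝ) ≤ x} : ℝ) ≤ c * Real.log (Real.log x)

/-- the theorem -/
def S_MAIN : Prop :=
  ∃ c : ℝ, ∀ x : ℝ, 3 ≤ x → (Set.ncard {p : ℕ | p.Prime ∧ (p : ℝ) ≤ x ∧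
    ¬ ∃ (K : Type) (_ : Field K) (_ : NumberField K), IsGalois ℚ K ∧ IsTotallyComplex K ∧
      Nonempty ((K ≃ₐ[ℚ] K) ≃* Multiplicative (Fin 5 → ZMod 2)) ∧ ¬ p ∣ classNumber K ∧
      PRat K p ∧ ∃ (F : Type) (_ : Field F) (_ : NumberField F) (_ : F →+* K) (u : (𝓞 F)ˣ),
        IsGalois ℚ F ∧ IsTotallyReal F ∧ Module.finrank ℚ F = 16 ∧
        Indep F ((1 + p) * u) ∧ RegUnit F ((1 + p) * u) p} : ℝ) ≤ c * Real.log (Real.log x)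

end Pool.Agent.P.MP_657a03_nt.G5
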