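import Pool.Agent.P.MP_657a03_nt.G5.If

/-! Step AVG. -/

set_option autoImplicit false
set_option linter.unusedSectionVars false

namespace Pool.Agent.P.MP_657a03_nt.G5

open NumberField Polynomial

namespace AVGx

open Finset

theorem step {h : ℕ → ℕ} {C y : ℕ} (h0 : ∀ m, h m ≠ 0) (hC : ∀ m, h m ≤ (m + 2) ^ C) (hy : 2 ≤ y)
    (T : Finset ℕ) (hT : ∀ p ∈ T, p.Prime ∧ y ≤ p ∧
      y ^ 4 ≤ 2 * Set.ncard {m : ℕ | m < y ^ 4 ∧ p ∣ h m}) : #T ≤ 10 * C := by
  have h1 : ∀ m ∈ range (y ^ 4), #{p ∈ T | p ∣ h m} ≤ 5 * C := fun m hm => by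
    have a1 := Nat.le_of_dvd (Nat.pos_of_ne_zero (h0 m)) (prod_primes_dvd (s := {p ∈ T | p ∣ h m})
      (h m) (fun p hp => (hT p (mem_filter.1 hp).1).1.prime) fun p hp => (mem_filter.1 hp).2)
    have a2 := pow_card_le_prod {p ∈ T | p ∣ h m} (fun p => p) y
      fun p hp => (hT p (mem_filter.1 hp).1).2.1
    have a3 : m + 2 ≤ y ^ 5 := by
      have : y ^ 4 * 2 ≤ y ^ 5 := (Nat.mul_le_mul_left (y ^ 4) hy).trans_eq (pow_succ y 4).symm
      have := mem_range.1 hm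
      omega
    refine (Nat.pow_le_pow_iff_right hy).1 (a2.trans (a1.trans ((hC m).trans ?_)))
    rw [pow_mul]
    exact Nat.pow_le_pow_left a3 C
  have h2 : ∀ p ∈ T, y ^ 4 ≤ 2 * #{m ∈ range (y ^ 4) | p ∣ h m} := fun p hp => by
    refine (hT p hp).2.2.trans_eq ?_
    rw [← Set.ncard_coe_finset]
    congr 2
    ext m
    simp
  have h3 := card_nsmul_le_sum _ _ _ h2
  have h4 := sum_le_card_nsmul _ _ _ h1
  rw [← mul_sum, smul_eq_mul] at h3
  rw [card_range, smul_eq_mul] at h4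
  have h5 : ∑ p ∈ T, #{m ∈ range (y ^ 4) | p ∣ h m} = ∑ m ∈ range (y ^ 4), #{p ∈ T | p ∣ h m} := by
    simp only [card_filter]
    exact sum_comm
  refine Nat.le_of_mul_le_mul_right (c := y ^ 4) ?_ (by positivity)
  linarith

theorem tower {x : ℝ} (hx : 3 ≤ x) :
    x ≤ 2 ^ 2 ^ (⌈2 * Real.log (Real.log x)⌉₊ + 1) ∧ Real.log (Real.log 3) ≤ Real.log (Real.log x) := by
  have h2 := Real.log_two_gt_d9
  have h3 : 0 < Real.log 3 := Real.log_pos (by norm_num)
  have h4 := Real.log_le_log (by norm_num) hx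
  refine ⟨(Real.le_pow_iff_log_le (by linarith) (by norm_num)).2 ?_, Real.log_le_log h3 h4⟩
  have h5 : Real.log x ≤ 2 ^ ⌈2 * Real.log (Real.log x)⌉₊ := by
    refine (Real.le_pow_iff_log_le (by linarith) (by norm_num)).2 ?_
    have a1 := Nat.le_ceil (2 * Real.log (Real.log x))
    have a2 : (0 : ℝ) ≤ ⌈2 * Real.log (Real.log x)⌉₊ := Nat.cast_nonneg _
    nlinarith
  push_cast
  rw [pow_succ]
  have a3 : (0 : ℝ) < 2 ^ ⌈2 * Real.log (Real.log x)⌉₊ := by positivity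
  nlinarith

end AVGx

open Finset in
theorem p_AVG :
    S_AVG := by
  classical
  intro B h C P₀ hB h0 hC hN
  have h1 : ∀ j, #{p ∈ range (2 ^ 2 ^ j + 1) | p ∈ B ∧ P₀ < p} ≤ 3 + 10 * C * j := by
    intro j
    induction j with
    | zero => exact (card_filter_le _ _).trans (by simp)
    | succ j ih =>
      have e : 2 ^ 2 ^ (j + 1) = (2 ^ 2 ^ j) ^ 2 := by rw [pow_succ 2 j, pow_mul]
      have hy : 2 ≤ 2 ^ 2 ^ j := Nat.le_self_pow (by positivity) 2
      rw [e]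
      generalize 2 ^ 2 ^ j = y at ih hy
      have := AVGx.step h0 hC hy {p ∈ Icc y (y ^ 2) | p ∈ B ∧ P₀ < p} fun p hp => by
        obtain ⟨a1, a2, a3⟩ := mem_filter.1 hp
        refine ⟨hB p a2, (mem_Icc.1 a1).1, hN p a2 a3 _ ?_⟩
        exact (Nat.pow_le_pow_left (mem_Icc.1 a1).2 2).trans_eq (by ring)
      refine (card_le_card fun p hp => ?_).trans
        ((card_union_le _ _).trans ((add_le_add ih this).trans_eq (by ring)))
      simp only [mem_union, mem_filter, mem_range, mem_Icc] at hp ⊢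
      by_cases a : p < y + 1
      · exact Or.inl ⟨a, hp.2⟩
      · exact Or.inr ⟨by omega, hp.2⟩
  have h3 : 0 < Real.log (Real.log 3) := Real.log_pos (by
    rw [Real.lt_log_iff_exp_lt (by norm_num)]
    linarith [Real.exp_one_lt_d9])
  refine ⟨(P₀ + 4 + 20 * C) / Real.log (Real.log 3) + 20 * C, fun x hx => ?_⟩
  obtain ⟨a1, a2⟩ := AVGx.tower hx
  have a3 := (Nat.ceil_lt_add_one (show 0 ≤ 2 * Real.log (Real.log x) by linarith)).le
  generalize ⌈2 * Real.log (Real.log x)⌉₊ = k at a1 a3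
  have a4 : Set.ncard {p ∈ B | (p : ℝ) ≤ x} ≤ P₀ + 1 + (3 + 10 * C * (k + 1)) := by
    refine le_trans ?_ ((card_union_le (range (P₀ + 1)) _).trans
      (add_le_add (card_range _).le (h1 (k + 1))))
    rw [← Set.ncard_coe_finset]
    refine Set.ncard_le_ncard (fun p hp => ?_) (Finset.finite_toSet _)
    have : p ≤ 2 ^ 2 ^ (k + 1) := by exact_mod_cast hp.2.trans a1
    simp only [coe_union, Set.mem_union, mem_coe, mem_filter, mem_range]
    by_cases a : p < P₀ + 1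
    · exact Or.inl a
    · exact Or.inr ⟨by omega, hp.1, by omega⟩
  have a5 : ((P₀ : ℝ) + 4 + 20 * C) ≤
      (P₀ + 4 + 20 * C) / Real.log (Real.log 3) * Real.log (Real.log x) := by
    rw [div_mul_eq_mul_div, le_div_iff₀ h3]
    exact mul_le_mul_of_nonneg_left a2 (by positivity)
  have a6 : (Set.ncard {p ∈ B | (p : ℝ) ≤ x} : ℝ) ≤ P₀ + 1 + (3 + 10 * C * (k + 1)) := by
    exact_mod_cast a4
  have a7 := mul_le_mul_of_nonneg_left a3 (show (0 : ℝ) ≤ C by positivity)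
  nlinarith

end Pool.Agent.P.MP_657a03_nt.G5
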