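import Pool.Agent.P.MP_657a03_nt.G5.If

/-! Ray characters are read on the principal units. -/

set_option autoImplicit false

namespace Pool.Agent.P.MP_657a03_nt.G5

open NumberField Ideal

section
variable {K : Type} [Field K] {p m : ℕ} {φ : Ideal (𝓞 K) → ZMod p}

theorem cop_span {a : 𝓞 K} : Cop p (span {a}) ↔ IsCoprime a p :=
  Ideal.isCoprime_span_singleton_iff _ _

theorem RayCh.mul (h : RayCh p m φ) {a b : 𝓞 K} (ha : IsCoprime a p) (hb : IsCoprime b p) :
    φ (span {a * b}) = φ (span {a}) + φ (span {b}) := by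
  rw [← span_singleton_mul_span_singleton, h.1 _ _ (cop_span.2 ha) (cop_span.2 hb)]

theorem RayCh.one (h : RayCh p m φ) : φ 1 = 0 := by
  have := h.2 1 (by simp)
  rwa [span_singleton_one, ← one_eq_top] at this

theorem RayCh.pow (h : RayCh p m φ) {I : Ideal (𝓞 K)} (hI : Cop p I) (n : ℕ) :
    φ (I ^ n) = n * φ I := by
  induction n with
  | zero => rw [pow_zero, h.one]; simp
  | succ n ih => rw [pow_succ, h.1 _ _ (IsCoprime.pow_left hI) hI, ih]; push_cast; ring

theorem cop_one_add (y : 𝓞 K) : IsCoprime (1 + p * y) (p : 𝓞 K) := ⟨1, -y, by ring⟩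

theorem RayCh.congr (h : RayCh p (m + 1) φ) {a b : 𝓞 K} (ha : IsCoprime a p)
    (hab : (p : 𝓞 K) ^ (m + 1) ∣ b - a) : φ (span {a}) = φ (span {b}) := by
  obtain ⟨u, v, huv⟩ := ha.pow_right (n := m + 1)
  obtain ⟨w, hw⟩ := hab
  have hu : IsCoprime u p := ⟨a, v * p ^ m, by linear_combination huv⟩
  have hb : IsCoprime b p := ⟨u, (v - u * w) * p ^ m, by linear_combination huv + u * hw⟩
  have h1 := h.2 (u * a) ⟨-v, by linear_combination huv⟩
  have h2 := h.2 (u * b) ⟨u * w - v, by linear_combination huv + u * hw⟩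
  rw [h.mul hu ha] at h1
  rw [h.mul hu hb] at h2
  linear_combination h1 - h2

theorem RayCh.down (hp : p.Prime) (hp2 : p ≠ 2) (h : RayCh p (m + 3) φ) : RayCh p (m + 2) φ := by
  refine ⟨h.1, fun α ⟨z, hz⟩ => ?_⟩
  have h3 : 3 ≤ p := by have := hp.two_le; omega
  obtain ⟨y, hy⟩ := ZMod.exists_one_add_mul_pow_prime_eq (u := (p : 𝓞 K) ^ (m + 1)) (v := p) hp
    (dvd_pow_self _ (by omega)) (by
      rw [← pow_mul, ← pow_succ', ← pow_succ]
      exact pow_dvd_pow _ (by nlinarith)) z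
  have hc : IsCoprime (1 + (p : 𝓞 K) ^ (m + 1) * z) p := ⟨1, -(p ^ m * z), by ring⟩
  rw [← h.congr (a := (1 + (p : 𝓞 K) ^ (m + 1) * z) ^ p) hc.pow_left
    ⟨-y, by rw [hy]; linear_combination hz⟩, ← span_singleton_pow, h.pow (cop_span.2 hc)]
  simp

theorem RayCh.two (hp : p.Prime) (hp2 : p ≠ 2) (h : RayCh p m φ) : RayCh p 2 φ := by
  have h' : RayCh p (m + 2) φ := ⟨h.1, fun α hα => h.2 α ((pow_dvd_pow _ (by omega)).trans hα)⟩
  clear h
  induction m with
  | zero => exact h'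
  | succ m ih => exact ih (h'.down hp hp2)

end

theorem p_CRIT : S_CRIT := by
  intro K _ _ p m φ hp hp2 h0
  have h := h0.two hp hp2
  have := Fact.mk hp
  refine ⟨fun y z => ?_, fun hh hF hz I hI => ?_⟩
  · rw [← h.mul (cop_one_add y) (cop_one_add z)]
    exact h.congr (m := 1) (cop_one_add _) ⟨y * z, by ring⟩
  · have hI0 : I ∈ nonZeroDivisors (Ideal (𝓞 K)) := by
      refine mem_nonZeroDivisors_of_ne_zero ?_
      rintro rfl
      have h1 : IsUnit (span {(p : 𝓞 K)}) := isCoprime_zero_left.1 hI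
      rw [isUnit_iff, span_singleton_eq_top] at h1
      have h2 := h1.map (Algebra.norm ℤ)
      rw [show (p : 𝓞 K) = algebraMap ℤ (𝓞 K) p by simp, Algebra.norm_algebraMap,
        isUnit_pow_iff Module.finrank_pos.ne', Int.isUnit_iff_natAbs_eq] at h2
      exact hp.one_lt.ne' (by simpa using h2)
    have h1 : ClassGroup.mk0 (⟨I, hI0⟩ ^ classNumber K) = 1 := by
      rw [map_pow]; exact pow_card_eq_one
    obtain ⟨α, hα⟩ := (ClassGroup.mk0_eq_one_iff (pow_mem hI0 (classNumber K))).1 h1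
    have hα' : I ^ classNumber K = span {α} := hα
    have hc : IsCoprime α p := cop_span.1 (hα' ▸ IsCoprime.pow_left hI)
    have hn : p ^ 2 - 1 + 1 = p ^ 2 := Nat.sub_add_cancel (Nat.one_le_pow _ _ hp.pos)
    obtain ⟨y, hy⟩ : (p : 𝓞 K) ∣ α ^ (p ^ 2 - 1) - 1 := by
      apply hc.symm.dvd_of_dvd_mul_right
      rw [sub_mul, ← pow_succ, hn, one_mul]
      exact hF α
    have h2 := hz y
    rw [← hy, add_sub_cancel, ← span_singleton_pow, h.pow (cop_span.2 hc), ← hα', h.pow hI] at h2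
    have h3 : ((p ^ 2 - 1 : ℕ) : ZMod p) = -1 := by
      have := congrArg (Nat.cast : ℕ → ZMod p) hn
      push_cast at this
      rw [ZMod.natCast_self] at this
      linear_combination this
    rw [h3, neg_mul, one_mul, neg_eq_zero, mul_eq_zero, ZMod.natCast_eq_zero_iff] at h2
    exact h2.resolve_left hh

end Pool.Agent.P.MP_657a03_nt.G5
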