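import Pool.Agent.P.MP_657a03_nt.G5.If

/-! The square of the Frobenius map is trivial modulo `p`. -/

set_option autoImplicit false

namespace Pool.Agent.P.MP_657a03_nt.G5

open NumberField

theorem cop_int {R : Type} [CommRing R] {p : ℕ} (hp : p.Prime) {n : ℤ} (h : ¬ (p : ℤ) ∣ n) :
    IsCoprime (p : R) (n : R) := by
  have := ((Nat.prime_iff_prime_int.1 hp).irreducible.coprime_iff_not_dvd.2 h).map
    (Int.castRingHom R)
  simpa using this

theorem not_dvd_N {t p : ℕ} (hp : p.Prime) (hp2 : p ≠ 2) {d : Fin t → ℤ}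
    (hd : ∀ i, ¬ (p : ℤ) ∣ d i) (S : Finset (Fin t)) (k : ℕ) :
    ¬ (p : ℤ) ∣ 2 ^ k * ∏ i ∈ S, d i := by
  have hP := Nat.prime_iff_prime_int.1 hp
  intro h
  rcases hP.dvd_or_dvd h with h | h
  · exact hp2 ((Nat.prime_dvd_prime_iff_eq hp Nat.prime_two).1
      (by exact_mod_cast hP.dvd_of_dvd_pow h))
  · obtain ⟨i, -, hi⟩ := (Prime.dvd_finsetProd_iff hP _).1 h
    exact hd i hi

theorem p_FROB : S_FROB := by
  intro t K _ _ d r p h hp hp2 hd x
  have := Fact.mk hp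
  let Q : 𝓞 K → Prop := fun x => (p : 𝓞 K) ∣ x ^ p ^ 2 - x
  have hadd : ∀ x y, Q x → Q y → Q (x + y) := by
    rintro x y ⟨a, ha⟩ ⟨b, hb⟩
    obtain ⟨c, hc⟩ := exists_add_pow_prime_pow_eq hp x y 2
    exact ⟨a + b + x * y * c, by rw [hc]; linear_combination ha + hb⟩
  have hmul : ∀ x y, Q x → Q y → Q (x * y) := by
    rintro x y ⟨a, ha⟩ ⟨b, hb⟩
    exact ⟨x ^ p ^ 2 * b + y * a, by
      rw [mul_pow]; linear_combination x ^ p ^ 2 * hb + y * ha⟩
  have hint : ∀ n : ℤ, Q n := by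
    intro n
    have h1 : (p : ℤ) ∣ n ^ p ^ 2 - n := by
      rw [← ZMod.intCast_zmod_eq_zero_iff_dvd]
      push_cast
      rw [ZMod.pow_card_pow, sub_self]
    simpa using map_dvd (Int.castRingHom (𝓞 K)) h1
  have hr : ∀ i, Q (r i) := by
    intro i
    obtain ⟨k, hk⟩ := hp.odd_of_ne_two hp2
    have h1 : (p : ℤ) ∣ d i ^ ((p - 1) * (k + 1)) - 1 := by
      rw [← ZMod.intCast_zmod_eq_zero_iff_dvd]
      push_cast
      rw [pow_mul, ZMod.pow_card_sub_one_eq_one, one_pow, sub_self]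
      exact fun h0 => hd i ((ZMod.intCast_zmod_eq_zero_iff_dvd _ _).1 h0)
    have h2 : p ^ 2 = 2 * ((p - 1) * (k + 1)) + 1 := by
      subst hk; simp only [Nat.add_sub_cancel]; ring
    have h3 := map_dvd (Int.castRingHom (𝓞 K)) h1
    simp only [map_natCast, map_sub, map_pow, map_one, eq_intCast] at h3
    change _ ∣ _
    rw [h2, pow_succ, pow_mul, h.sq i, ← sub_one_mul]
    exact h3.mul_right _
  obtain ⟨n, hn⟩ := h.gen x
  have hQ : Q (((2 ^ t * ∏ i, d i : ℤ) : 𝓞 K) * x) := by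
    rw [hn]
    refine Finset.sum_induction _ Q hadd (by simpa using hint 0) fun S _ => hmul _ _ (hint _) ?_
    exact Finset.prod_induction _ Q hmul (by simpa using hint 1) fun i _ => hr i
  obtain ⟨a, ha⟩ := hQ
  obtain ⟨b, hb⟩ := hint (2 ^ t * ∏ i, d i)
  apply (cop_int hp (not_dvd_N hp hp2 hd Finset.univ t)).dvd_of_dvd_mul_left
  exact ⟨a - x ^ p ^ 2 * b, by
    rw [mul_pow] at ha; linear_combination ha - x ^ p ^ 2 * hb⟩

end Pool.Agent.P.MP_657a03_nt.G5
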