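import Pool.Agent.P.MP_657a03_nt.G5.TCRIT
import Pool.Agent.P.MP_657a03_nt.G5.TFROB

/-! Step RANK. -/

set_option autoImplicit false

namespace Pool.Agent.P.MP_657a03_nt.G5

open NumberField Polynomial

theorem MQ.sq_prod {t : ℕ} {K : Type} [Field K] [NumberField K] {d : Fin t → ℤ}
    {r : Fin t → 𝓞 K} (h : MQ K d r) (S : Finset (Fin t)) :
    (∏ i ∈ S, r i) ^ 2 = ((∏ i ∈ S, d i : ℤ) : 𝓞 K) := by
  rw [← Finset.prod_pow]
  simp [h.sq]

/-- the Fermat quotients of a unit and of its inverse -/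
theorem unit_quot (hUNIT : S_UNIT) (hLUC : S_LUC) {K : Type} [Field K] [NumberField K] {p : ℕ}
    (hp : p.Prime) (hp2 : p ≠ 2) {r : 𝓞 K} {D s g : ℤ} (hr : r ^ 2 = D) (hD : ¬ (p : ℤ) ∣ D)
    (hg : (s ^ 2 - 4) * D = g ^ 2) (hs : ¬ (p : ℤ) ∣ s ^ 2 - 4)
    (hU : ¬ (p : ℤ) ^ 2 ∣ (U (p ^ 2 - 1)).eval s) :
    ∃ (e e' y y' : 𝓞 K) (a : ℤ), e * e' = 1 ∧ e ^ (p ^ 2 - 1) = 1 + p * y ∧
      e' ^ (p ^ 2 - 1) = 1 + p * y' ∧ D * (y - y') = a * r ∧ ¬ (p : ℤ) ∣ a := by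
  have hP := Nat.prime_iff_prime_int.1 hp
  obtain ⟨e, e', h1, -, h3, h4⟩ := hUNIT K r D s g hr (fun h => hD (h ▸ dvd_zero _)) hg
  obtain ⟨⟨u, hu⟩, ⟨v, hv⟩, -⟩ := hLUC p s hp hp2 hs
  have hn : p ^ 2 - 2 + 1 = p ^ 2 - 1 := by
    have : 2 ≤ p ^ 2 := by have := hp.two_le; nlinarith
    omega
  obtain ⟨h5, h6⟩ := h4 (p ^ 2 - 2)
  rw [hn, hu, eq_sub_of_add_eq hv] at h5 h6
  push_cast at h5 h6
  refine ⟨e, e', u * e - v, u * e' - v, u * g, h1, by linear_combination h5,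
    by linear_combination h6, by push_cast; linear_combination (u : 𝓞 K) * h3, fun h => ?_⟩
  rcases hP.dvd_or_dvd h with h | h
  · exact hU (by rw [hu, sq]; exact mul_dvd_mul_left _ h)
  · exact (hP.dvd_or_dvd (hg ▸ dvd_pow h two_ne_zero)).elim hs hD

theorem p_RANK (hCRIT : S_CRIT) (hUNIT : S_UNIT) (hLUC : S_LUC) (hFROB : S_FROB) (hSIG : S_SIG) :
    S_RANK := by
  intro k K _ _ d r p s g h hd0 hp hp2 hd hh hS m φ hφ
  have := Fact.mk hp
  have hr2 : InfinitePlace.nrComplexPlaces K = 2 ^ k := by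
    have := ((hSIG _ K d r h).2 ⟨0, hd0⟩).2
    omega
  have hN : ∀ (S : Finset (Fin (k + 1))) (j : ℕ), ((2 ^ j * ∏ i ∈ S, d i : ℤ) : ZMod p) ≠ 0 :=
    fun S j h0 => not_dvd_N hp hp2 hd S j ((ZMod.intCast_zmod_eq_zero_iff_dvd _ _).1 h0)
  let l : ∀ ψ : Ideal (𝓞 K) → ZMod p, RayCh p m ψ → 𝓞 K →+ ZMod p := fun ψ hψ =>
    AddMonoidHom.mk' (fun y => ψ (Ideal.span {1 + p * y})) (hCRIT K p m ψ hp hp2 hψ).1
  have hl : ∀ (f : 𝓞 K →+ ZMod p) (n : ℤ) x, f (n * x) = n * f x := fun f n x => by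
    rw [← zsmul_eq_mul, map_zsmul, zsmul_eq_mul]
  have hA : ∀ ψ hψ S, S.Nonempty → 0 ∉ S → l ψ hψ (∏ i ∈ S, r i) = 0 := by
    intro ψ hψ S h1 h0
    obtain ⟨a1, a2, a3⟩ := hS S h1 h0
    obtain ⟨e, e', y, y', a, b1, b2, b3, b4, b5⟩ := unit_quot hUNIT hLUC hp hp2 (h.sq_prod S)
      (by simpa using not_dvd_N hp hp2 hd S 0) a1 a2 a3
    have hu : ∀ x x' z : 𝓞 K, x * x' = 1 → x ^ (p ^ 2 - 1) = 1 + p * z → l ψ hψ z = 0 := by
      intro x x' z hx hz
      change ψ (Ideal.span {1 + p * z}) = 0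
      rw [← hz, Ideal.span_singleton_eq_top.2 ((IsUnit.of_mul_eq_one _ hx).pow _),
        ← Ideal.one_eq_top, hψ.one]
    have := congrArg (l ψ hψ) b4
    rw [hl, hl, map_sub, hu e e' y b1 b2, hu e' e y' (by rw [mul_comm, b1]) b3, sub_zero,
      mul_zero] at this
    exact (mul_eq_zero.1 this.symm).resolve_left
      fun h0 => b5 ((ZMod.intCast_zmod_eq_zero_iff_dvd _ _).1 h0)
  let J := Option ((Finset.univ.erase (0 : Fin (k + 1))).powerset)
  let σ : J → Finset (Fin (k + 1)) := fun j => j.elim ∅ fun T => insert 0 T.1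
  let v : Fin (InfinitePlace.nrComplexPlaces K + 2) → J → ZMod p :=
    fun i j => l (φ i) (hφ i) (∏ i ∈ σ j, r i)
  have hv : ¬ LinearIndependent (ZMod p) v := by
    intro hv
    have := hv.fintype_card_le_finrank
    rw [Module.finrank_fintype_fun_eq_card, Fintype.card_option, Fintype.card_coe,
      Finset.card_powerset] at this
    simp [hr2] at this
  obtain ⟨c, hc, i0, hi0⟩ := Fintype.not_linearIndependent_iff.1 hv
  refine ⟨c, fun h0 => hi0 (congrFun h0 i0), ?_⟩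
  have hψ : RayCh p m fun I => ∑ i, c i * φ i I := by
    refine ⟨fun I J hI hJ => ?_, fun α hα => ?_⟩
    · rw [← Finset.sum_add_distrib]
      exact Finset.sum_congr rfl fun i _ => by rw [(hφ i).1 I J hI hJ, mul_add]
    · exact Finset.sum_eq_zero fun i _ => by rw [(hφ i).2 α hα, mul_zero]
  refine (hCRIT K p m _ hp hp2 hψ).2 hh (hFROB _ K d r p h hp hp2 hd) fun x => ?_
  have hB : ∀ S, l _ hψ (∏ i ∈ S, r i) = 0 := by
    intro S
    have hj : ∀ j, l _ hψ (∏ i ∈ σ j, r i) = 0 := fun j => by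
      have := congrFun hc j
      rw [Finset.sum_apply] at this
      exact this
    by_cases h0 : 0 ∈ S
    · have := hj (some ⟨S.erase 0, Finset.mem_powerset.2
        (Finset.erase_subset_erase _ (Finset.subset_univ _))⟩)
      simpa [σ, Finset.insert_erase h0] using this
    · rcases S.eq_empty_or_nonempty with rfl | h1
      · exact hj none
      · exact hA _ hψ S h1 h0
  obtain ⟨n, hn⟩ := h.gen x
  have := congrArg (l _ hψ) hn
  rw [hl, map_sum, Finset.sum_eq_zero fun S _ => by rw [hl, hB, mul_zero]] at this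
  exact (mul_eq_zero.1 this).resolve_left (hN _ _)

end Pool.Agent.P.MP_657a03_nt.G5
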